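import Pool.Agent.Q94.CP.Stm

/-!
# Areas of plane sections: finiteness, positivity, translation, charts
-/

set_option autoImplicit false

open MeasureTheory Set

namespace Q94.CP

theorem norm_comb {d e : E} (h : ON d e) (x y : ℝ) : ‖x • d + y • e‖ ^ 2 = x ^ 2 + y ^ 2 := by
  obtain ⟨h1, h2, h3⟩ := h
  rw [norm_add_sq_real, norm_smul, norm_smul, h1, h2, real_inner_smul_left, real_inner_smul_right, h3]
  simp [sq_abs]

theorem a1c : A1c := by
  intro K p d e s t
  unfold area
  have h : chart K (p + s • d + t • e) d e = (fun x : ℝ × ℝ => x + (s, t)) ⁻¹' chart K p d e := by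
    ext x
    simp only [chart, mem_ofPred_eq, mem_preimage, Prod.fst_add, Prod.snd_add]
    have : p + s • d + t • e + x.1 • d + x.2 • e = p + (x.1 + s) • d + (x.2 + t) • e := by
      module
    rw [this]
  rw [h, measure_preimage_add_right]

theorem a1d : A1d := by
  intro D K hD hK
  obtain ⟨R1, h1⟩ := hD.isBounded.exists_norm_le
  obtain ⟨R2, h2⟩ := hK.isBounded.exists_norm_le
  refine ⟨R1 + R2, ?_⟩
  intro p hp d e hON x hx
  have h3 : ‖x.1 • d + x.2 • e‖ ≤ R1 + R2 := by
    have h4 : x.1 • d + x.2 • e = (p + x.1 • d + x.2 • e) - p := by module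
    rw [h4]
    refine (norm_sub_le _ _).trans ?_
    have h5 := h1 p hp
    have h6 := h2 _ hx
    linarith
  have h7 := norm_comb hON x.1 x.2
  have h0 := norm_nonneg (x.1 • d + x.2 • e)
  have h8 : |x.1| ≤ R1 + R2 := by
    refine (Real.abs_le_sqrt (y := ‖x.1 • d + x.2 • e‖ ^ 2) (by nlinarith [sq_nonneg x.2])).trans ?_
    rw [Real.sqrt_sq h0]
    exact h3
  have h9 : |x.2| ≤ R1 + R2 := by
    refine (Real.abs_le_sqrt (y := ‖x.1 • d + x.2 • e‖ ^ 2) (by nlinarith [sq_nonneg x.1])).trans ?_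
    rw [Real.sqrt_sq h0]
    exact h3
  rw [abs_le] at h8 h9
  exact ⟨⟨h8.1, h9.1⟩, ⟨h8.2, h9.2⟩⟩

theorem a1e : A1e := by
  constructor
  · intro K p d e hK hON
    obtain ⟨R, hR⟩ := a1d {p} K isCompact_singleton hK
    refine IsCompact.of_isClosed_subset isCompact_Icc ?_ (hR p rfl d e hON)
    have hc : Continuous fun x : ℝ × ℝ => p + x.1 • d + x.2 • e := by fun_prop
    exact hK.isClosed.preimage hc
  · intro K p d e hK x hx y hy a b ha hb hab
    have h1 := hK hx hy ha hb hab
    have h2 : a • (p + x.1 • d + x.2 • e) + b • (p + y.1 • d + y.2 • e) =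
        p + (a • x + b • y).1 • d + (a • x + b • y).2 • e := by
      have h3 : a • (p + x.1 • d + x.2 • e) + b • (p + y.1 • d + y.2 • e) =
          (a + b) • p + (a • x + b • y).1 • d + (a • x + b • y).2 • e := by
        simp only [Prod.fst_add, Prod.snd_add, Prod.smul_fst, Prod.smul_snd, smul_eq_mul]
        module
      rw [h3, hab, one_smul]
    rw [h2] at h1
    exact h1

theorem a1a : A1a := by
  intro K hK
  obtain ⟨R, hR⟩ := a1d K K hK hK
  have h1 : sig K ≤ volume (Icc (-R, -R) (R, R) : Set (ℝ × ℝ)) := by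
    unfold sig
    refine iSup_le fun p => iSup_le fun d => iSup_le fun e => iSup_le fun hON => ?_
    rcases (chart K p d e).eq_empty_or_nonempty with h | ⟨x, hx⟩
    · unfold area
      rw [h, measure_empty]
      exact bot_le
    · rw [← a1c K p d e x.1 x.2]
      exact measure_mono (hR _ hx d e hON)
  exact (h1.trans_lt isCompact_Icc.measure_lt_top).ne

theorem a1b : A1b := by
  intro D hD
  obtain ⟨-, -, x0, hx0⟩ := hD
  let d : E := EuclideanSpace.single 0 1
  let e : E := EuclideanSpace.single 1 1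
  have hON : ON d e := by
    refine ⟨?_, ?_, ?_⟩
    · simp [d]
    · simp [e]
    · show inner ℝ (EuclideanSpace.single 0 (1 : ℝ)) (EuclideanSpace.single 1 (1 : ℝ)) = (0 : ℝ)
      rw [EuclideanSpace.inner_single_left]
      simp
  have hc : Continuous fun x : ℝ × ℝ => x0 + x.1 • d + x.2 • e := by fun_prop
  have ho : IsOpen ((fun x : ℝ × ℝ => x0 + x.1 • d + x.2 • e) ⁻¹' interior D) :=
    isOpen_interior.preimage hc
  have hne : ((fun x : ℝ × ℝ => x0 + x.1 • d + x.2 • e) ⁻¹' interior D).Nonempty :=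
    ⟨(0, 0), by simpa using hx0⟩
  have h1 : 0 < volume ((fun x : ℝ × ℝ => x0 + x.1 • d + x.2 • e) ⁻¹' interior D) :=
    ho.measure_pos _ hne
  have h2 : volume ((fun x : ℝ × ℝ => x0 + x.1 • d + x.2 • e) ⁻¹' interior D) ≤ area D x0 d e :=
    measure_mono fun x hx => (interior_subset hx : x0 + x.1 • d + x.2 • e ∈ D)
  have h3 : area D x0 d e ≤ sig D := by
    unfold sig
    exact le_iSup_of_le x0 (le_iSup_of_le d (le_iSup_of_le e (le_iSup_of_le hON le_rfl)))
  exact (h1.trans_le (h2.trans h3)).ne'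

end Q94.CP
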