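import Pool.Agent.Q94.CP.Stm

/-!
CP-10: the cross lemma, horizontal lines (helper121).
-/

set_option autoImplicit false

open MeasureTheory Set Filter Topology

namespace Q94.CP

namespace K10

theorem chg (g f f' φ : ℝ → ℝ) (A B : ℝ) (hf : ∀ s ∈ Ioo A B, HasDerivAt f (f' s) s)
    (h0 : ∀ s ∈ Ioo A B, 0 ≤ f' s) (hφ : ∀ s ∈ Ioo A B, φ s ≤ f' s * g (f s))
    (hm : StrictMonoOn f (Ioo A B)) :
    (∫⁻ s in Ioo A B, ENNReal.ofReal (φ s)) ≤ ∫⁻ y, ENNReal.ofReal (g y) := by
  have h1 := lintegral_image_eq_lintegral_abs_deriv_mul (s := Ioo A B) measurableSet_Ioo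
    (fun x hx => (hf x hx).hasDerivWithinAt) hm.injOn (fun y => ENNReal.ofReal (g y))
  calc (∫⁻ s in Ioo A B, ENNReal.ofReal (φ s))
      ≤ ∫⁻ s in Ioo A B, ENNReal.ofReal |f' s| * ENNReal.ofReal (g (f s)) := by
        apply setLIntegral_mono' measurableSet_Ioo
        intro s hs
        rw [← ENNReal.ofReal_mul (abs_nonneg _), abs_of_nonneg (h0 s hs)]
        exact ENNReal.ofReal_le_ofReal (hφ s hs)
    _ = ∫⁻ y in f '' Ioo A B, ENNReal.ofReal (g y) := h1.symm
    _ ≤ ∫⁻ y, ENNReal.ofReal (g y) := setLIntegral_le_lintegral _ _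

/-- the pointwise inequality -/
theorem alg {W w l x r : ℝ} (hW : 0 < W) (hw : 0 < w) (hl0 : 0 < l) (hl1 : l < 1)
    (hr : r ^ 2 = x) (_ : 0 ≤ r) :
    W * (1 + 2 * l * (r - 1)) ≤ ((1 - l) + l * x * (W / w)) * ((1 - l) * W + l * w) := by
  subst hr
  have e : ((1 - l) + l * r ^ 2 * (W / w)) * ((1 - l) * W + l * w) =
      (1 - l) ^ 2 * W + l ^ 2 * r ^ 2 * W + l * (1 - l) * (w + r ^ 2 * W ^ 2 / w) := by
    field_simp
    ring
  rw [e]
  have h1 : 2 * r * W ≤ w + r ^ 2 * W ^ 2 / w := by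
    rw [← sub_nonneg]
    have : w + r ^ 2 * W ^ 2 / w - 2 * r * W = (w - r * W) ^ 2 / w := by
      field_simp
      ring
    rw [this]
    positivity
  have h2 : 0 < l * (1 - l) := mul_pos hl0 (by linarith)
  have h3 := mul_le_mul_of_nonneg_left h1 h2.le
  have h4 : 0 ≤ W * (l * (r - 1)) ^ 2 := by positivity
  nlinarith

end K10

/-- CP-10 -/
theorem x3 : X3 := by
  intro G P A1 B1 A2 B2 h T hPl hA1 hAB1 hA2 hAB2 hh hhA h1 h2 hT
  obtain ⟨-, -, -, hconc⟩ := hPl
  obtain ⟨hT1, hT2, -⟩ := hT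
  have hTp : ∀ s ∈ Ioo A1 B1, 2 * h < T s := fun s hs => hhA.trans_lt (hT1 s hs).1.1
  apply K10.chg (fun y => G y h) (fun s => s - h * (s / T s))
    (fun s => (1 - h / T s) + h / T s * (s / T s) * (G s 0 / G 0 (T s))) _ A1 B1
  · intro s hs
    obtain ⟨hTI, hTd⟩ := hT1 s hs
    have hT0 : T s ≠ 0 := by linarith [hTp s hs]
    have hd := (hasDerivAt_id s).sub (((hasDerivAt_id s).div hTd hT0).const_mul h)
    have e : (1 - h / T s) + h / T s * (s / T s) * (G s 0 / G 0 (T s)) =
        1 - h * ((1 * T s - id s * (G s 0 / G 0 (T s))) / T s ^ 2) := by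
      have := (h2 _ hTI).2.ne'
      simp only [id]
      field_simp
      ring
    rw [e]
    exact hd
  · intro s hs
    obtain ⟨hTI, -⟩ := hT1 s hs
    have hTs := hTp s hs
    have hT0 : 0 < T s := by linarith
    have hs0 : 0 < s := hA1.trans hs.1
    have hw := (h2 _ hTI).2
    have hW := (h1 s hs).2
    have hl : h / T s < 1 := by rw [div_lt_one hT0]; linarith
    have : 0 ≤ 1 - h / T s := by linarith
    positivity
  · intro s hs
    obtain ⟨hTI, -⟩ := hT1 s hs
    have hTs := hTp s hs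
    have hT0 : 0 < T s := by linarith
    have hs0 : 0 < s := hA1.trans hs.1
    obtain ⟨hwP, hw⟩ := h2 _ hTI
    obtain ⟨hWP, hW⟩ := h1 s hs
    have hl0 : 0 < h / T s := by positivity
    have hl : h / T s < 1 := by rw [div_lt_one hT0]; linarith
    have hx : 0 ≤ s / T s := by positivity
    have key := K10.alg (x := s / T s) hW hw hl0 hl (Real.sq_sqrt hx) (Real.sqrt_nonneg _)
    refine key.trans ?_
    apply mul_le_mul_of_nonneg_left
    · have hc := hconc.2 hWP hwP (show 0 ≤ 1 - h / T s by linarith) hl0.le (by ring)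
      simp only [smul_eq_mul] at hc
      refine hc.trans (le_of_eq ?_)
      have e1 : ((1 - h / T s) • ((s, 0) : ℝ × ℝ) + (h / T s) • ((0, T s) : ℝ × ℝ)) =
          (s - h * (s / T s), h) := by
        ext
        · simp
          ring
        · simp
          field_simp
      rw [e1]
    · have : 0 ≤ 1 - h / T s := by linarith
      positivity
  · intro s hs s' hs' hss
    have hTs := hTp s hs
    have hTs' := hTp s' hs'
    have hTT := hT2 hs hs' hss
    have hs0 : 0 < s := hA1.trans hs.1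
    show s - h * (s / T s) < s' - h * (s' / T s')
    have e : ∀ u : ℝ, u - h * (u / T u) = u * (1 - h / T u) := by intro u; ring
    rw [e, e]
    have h3 : h / T s' < h / T s := div_lt_div_of_pos_left hh (by linarith) hTT
    have h4 : h / T s < 1 := by rw [div_lt_one (by linarith)]; linarith
    have h5 : 0 < 1 - h / T s := by linarith
    nlinarith [mul_pos (sub_pos.2 hss) h5, mul_pos (hs0.trans hss) (sub_pos.2 h3)]

end Q94.CP
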