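import Pool.Agent.Q94.CP.Stm
import Pool.Agent.Q94.CP.K10

/-!
CP-11: the cross lemma, vertical lines (helper121).
-/

set_option autoImplicit false

open MeasureTheory Set Filter Topology

namespace Q94.CP

namespace K11

/-- the pointwise inequality -/
theorem alg {W w l x r : ℝ} (hW : 0 < W) (hw : 0 < w) (hl0 : 0 < l) (hl1 : l < 1)
    (hr : r ^ 2 = x) (_ : 0 ≤ r) :
    W * (1 + 2 * l * (r - 1)) ≤ ((1 - l) * (W / w) + l * x) * (l * W + (1 - l) * w) := by
  subst hr
  have e : ((1 - l) * (W / w) + l * r ^ 2) * (l * W + (1 - l) * w) =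
      (1 - l) ^ 2 * W + l ^ 2 * r ^ 2 * W + l * (1 - l) * (W ^ 2 / w + r ^ 2 * w) := by
    field_simp
    ring
  rw [e]
  have h1 : 2 * r * W ≤ W ^ 2 / w + r ^ 2 * w := by
    rw [← sub_nonneg]
    have : W ^ 2 / w + r ^ 2 * w - 2 * r * W = (W - r * w) ^ 2 / w := by
      field_simp
      ring
    rw [this]
    positivity
  have h2 : 0 < l * (1 - l) := mul_pos hl0 (by linarith)
  have h3 := mul_le_mul_of_nonneg_left h1 h2.le
  have h4 : 0 ≤ W * (l * (r - 1)) ^ 2 := by positivity
  nlinarith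

end K11

/-- CP-11 -/
theorem x4 : X4 := by
  intro G P A1 B1 A2 B2 h T hPl hA1 hAB1 hA2 hAB2 hh hhA h1 h2 hT
  obtain ⟨-, -, -, hconc⟩ := hPl
  obtain ⟨hT1, hT2, -⟩ := hT
  apply K10.chg (fun y => G h y) (fun s => T s - h * (T s / s))
    (fun s => (1 - h / s) * (G s 0 / G 0 (T s)) + h / s * (T s / s)) _ A1 B1
  · intro s hs
    obtain ⟨hTI, hTd⟩ := hT1 s hs
    have hs0 : s ≠ 0 := (hA1.trans hs.1).ne'
    have hd := hTd.sub ((hTd.div (hasDerivAt_id s) hs0).const_mul h)
    have e : (1 - h / s) * (G s 0 / G 0 (T s)) + h / s * (T s / s) =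
        G s 0 / G 0 (T s) - h * ((G s 0 / G 0 (T s) * id s - T s * 1) / id s ^ 2) := by
      have := (h2 _ hTI).2.ne'
      simp only [id]
      field_simp
      ring
    rw [e]
    exact hd
  · intro s hs
    obtain ⟨hTI, -⟩ := hT1 s hs
    have hs0 : 0 < s := hA1.trans hs.1
    have hT0 : 0 < T s := hA2.trans hTI.1
    have hw := (h2 _ hTI).2
    have hW := (h1 s hs).2
    have hl : h / s < 1 := by rw [div_lt_one hs0]; linarith [hs.1]
    have : 0 ≤ 1 - h / s := by linarith
    positivity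
  · intro s hs
    obtain ⟨hTI, -⟩ := hT1 s hs
    have hs0 : 0 < s := hA1.trans hs.1
    have hT0 : 0 < T s := hA2.trans hTI.1
    obtain ⟨hwP, hw⟩ := h2 _ hTI
    obtain ⟨hWP, hW⟩ := h1 s hs
    have hl0 : 0 < h / s := by positivity
    have hl : h / s < 1 := by rw [div_lt_one hs0]; linarith [hs.1]
    have hx : 0 ≤ T s / s := by positivity
    have key := K11.alg (x := T s / s) hW hw hl0 hl (Real.sq_sqrt hx) (Real.sqrt_nonneg _)
    refine key.trans ?_
    apply mul_le_mul_of_nonneg_left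
    · have hc := hconc.2 hWP hwP hl0.le (show 0 ≤ 1 - h / s by linarith) (by ring)
      simp only [smul_eq_mul] at hc
      refine hc.trans (le_of_eq ?_)
      have e1 : ((h / s) • ((s, 0) : ℝ × ℝ) + (1 - h / s) • ((0, T s) : ℝ × ℝ)) =
          (h, T s - h * (T s / s)) := by
        ext
        · simp
          field_simp
        · simp
          ring
      rw [e1]
    · have : 0 ≤ 1 - h / s := by linarith
      positivity
  · intro s hs s' hs' hss
    have hTT := hT2 hs hs' hss
    have hs0 : 0 < s := hA1.trans hs.1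
    have hT0 : 0 < T s := hA2.trans (hT1 s hs).1.1
    show T s - h * (T s / s) < T s' - h * (T s' / s')
    have e : ∀ u : ℝ, T u - h * (T u / u) = T u * (1 - h / u) := by intro u; ring
    rw [e, e]
    have h3 : h / s' < h / s := div_lt_div_of_pos_left hh hs0 hss
    have h4 : h / s < 1 := by rw [div_lt_one hs0]; linarith [hs.1]
    have h5 : 0 < 1 - h / s := by linarith
    nlinarith [mul_pos (sub_pos.2 hTT) h5, mul_pos (hT0.trans hTT) (sub_pos.2 h3)]

end Q94.CP
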