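import Pool.Agent.Q94.CP.Stm

/-!
CP-12: the two inequalities force `T = id` (helper121).
-/

set_option autoImplicit false

open MeasureTheory Set Filter Topology

namespace Q94.CP

namespace K12

theorem alg {s t h : ℝ} (hs : 0 < s) (ht : 0 < t) (hh : 0 < h) :
    0 ≤ (1 + 2 * (h / t) * (Real.sqrt (s / t) - 1)) + (1 + 2 * (h / s) * (Real.sqrt (t / s) - 1)) - 2 ∧
    ((1 + 2 * (h / t) * (Real.sqrt (s / t) - 1)) + (1 + 2 * (h / s) * (Real.sqrt (t / s) - 1)) - 2 = 0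
      → t = s) := by
  set a := Real.sqrt s with ha
  set b := Real.sqrt t with hb
  have ha0 : 0 < a := Real.sqrt_pos.2 hs
  have hb0 : 0 < b := Real.sqrt_pos.2 ht
  have hs2 : s = a ^ 2 := (Real.sq_sqrt hs.le).symm
  have ht2 : t = b ^ 2 := (Real.sq_sqrt ht.le).symm
  have e1 : Real.sqrt (s / t) = a / b := by rw [Real.sqrt_div hs.le]
  have e2 : Real.sqrt (t / s) = b / a := by rw [Real.sqrt_div ht.le]
  have e3 : (1 + 2 * (h / t) * (Real.sqrt (s / t) - 1)) +
      (1 + 2 * (h / s) * (Real.sqrt (t / s) - 1)) - 2 =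
      2 * h * ((a - b) ^ 2 * (a ^ 2 + a * b + b ^ 2)) / (a ^ 3 * b ^ 3) := by
    rw [e1, e2]
    clear_value a b
    subst hs2 ht2
    field_simp
    ring
  rw [e3]
  constructor
  · positivity
  · intro h0
    have h1 : (a - b) ^ 2 = 0 := by
      by_contra hne
      have hp : 0 < (a - b) ^ 2 := lt_of_le_of_ne (sq_nonneg _) (Ne.symm hne)
      have : 0 < 2 * h * ((a - b) ^ 2 * (a ^ 2 + a * b + b ^ 2)) / (a ^ 3 * b ^ 3) := by positivity
      linarith
    have h2 : a = b := by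
      have := pow_eq_zero_iff (two_ne_zero) |>.1 h1
      linarith
    rw [hs2, ht2, h2]

theorem nn {s t h : ℝ} (ht : 0 < t) (hh : 0 < h) (hht : 2 * h ≤ t) :
    0 ≤ 1 + 2 * (h / t) * (Real.sqrt (s / t) - 1) := by
  have h1 : h / t ≤ 1 / 2 := by
    rw [div_le_div_iff₀ ht two_pos]
    linarith
  have h2 : 0 < h / t := by positivity
  have h3 := Real.sqrt_nonneg (s / t)
  nlinarith [mul_nonneg h2.le h3]

end K12

/-- CP-12 -/
theorem x5 : X5 := by
  intro W T A1 B1 A2 B2 h σ hA1 hAB1 hA2 hAB2 hh hhA1 hhA2 hWc hWp hTc hTI hI1 hI2 hI3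
  set H : ℝ → ℝ := fun s => 1 + 2 * (h / T s) * (Real.sqrt (s / T s) - 1) with hH
  set H' : ℝ → ℝ := fun s => 1 + 2 * (h / s) * (Real.sqrt (T s / s) - 1) with hH'
  have hs0 : ∀ s ∈ Ioo A1 B1, 0 < s := fun s hs => hA1.trans hs.1
  have hT0 : ∀ s ∈ Ioo A1 B1, 0 < T s := fun s hs => hA2.trans (hTI s hs).1
  have hHc : ContinuousOn H (Ioo A1 B1) := by
    have h1 : ∀ s ∈ Ioo A1 B1, T s ≠ 0 := fun s hs => (hT0 s hs).ne'
    apply ContinuousOn.add continuousOn_const
    apply ContinuousOn.mul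
    · exact continuousOn_const.mul (continuousOn_const.div hTc h1)
    · exact ((continuousOn_id.div hTc h1).sqrt).sub continuousOn_const
  have hHc' : ContinuousOn H' (Ioo A1 B1) := by
    have h1 : ∀ s ∈ Ioo A1 B1, s ≠ 0 := fun s hs => (hs0 s hs).ne'
    apply ContinuousOn.add continuousOn_const
    apply ContinuousOn.mul
    · exact continuousOn_const.mul (continuousOn_const.div continuousOn_id h1)
    · exact ((hTc.div continuousOn_id h1).sqrt).sub continuousOn_const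
  have hHn : ∀ s ∈ Ioo A1 B1, 0 ≤ H s := fun s hs =>
    K12.nn (hT0 s hs) hh (hhA2.trans (hTI s hs).1.le)
  have hHn' : ∀ s ∈ Ioo A1 B1, 0 ≤ H' s := fun s hs =>
    K12.nn (hs0 s hs) hh (hhA1.trans hs.1.le)
  have hD : ∀ s ∈ Ioo A1 B1, 0 ≤ H s + H' s - 2 ∧ (H s + H' s - 2 = 0 → T s = s) := fun s hs =>
    K12.alg (hs0 s hs) (hT0 s hs) hh
  set D : ℝ → ℝ := fun s => W s * (H s + H' s - 2) with hDd
  have hDc : ContinuousOn D (Ioo A1 B1) :=
    hWc.mul ((hHc.add hHc').sub continuousOn_const)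
  have m1 : AEMeasurable (fun s => ENNReal.ofReal (W s * H s)) (volume.restrict (Ioo A1 B1)) :=
    ((hWc.mul hHc).aemeasurable measurableSet_Ioo).ennreal_ofReal
  have m2 : AEMeasurable (fun s => ENNReal.ofReal (W s)) (volume.restrict (Ioo A1 B1)) :=
    (hWc.aemeasurable measurableSet_Ioo).ennreal_ofReal
  have m3 : AEMeasurable (fun s => ENNReal.ofReal (D s)) (volume.restrict (Ioo A1 B1)) :=
    (hDc.aemeasurable measurableSet_Ioo).ennreal_ofReal
  have m4 : AEMeasurable (fun s => ENNReal.ofReal (W s) + ENNReal.ofReal (W s))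
      (volume.restrict (Ioo A1 B1)) := m2.add m2
  have e1 : (∫⁻ s in Ioo A1 B1, ENNReal.ofReal (W s * H s)) +
      (∫⁻ s in Ioo A1 B1, ENNReal.ofReal (W s * H' s)) =
      (∫⁻ s in Ioo A1 B1, ENNReal.ofReal (W s)) + (∫⁻ s in Ioo A1 B1, ENNReal.ofReal (W s)) +
      ∫⁻ s in Ioo A1 B1, ENNReal.ofReal (D s) := by
    rw [← lintegral_add_left' m1, ← lintegral_add_left' m2, ← lintegral_add_left' m4]
    apply setLIntegral_congr_fun measurableSet_Ioo
    intro s hs
    have w0 := (hWp s hs).le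
    have d0 := (hD s hs).1
    show ENNReal.ofReal (W s * H s) + ENNReal.ofReal (W s * H' s) =
      ENNReal.ofReal (W s) + ENNReal.ofReal (W s) + ENNReal.ofReal (D s)
    rw [← ENNReal.ofReal_add (mul_nonneg w0 (hHn s hs)) (mul_nonneg w0 (hHn' s hs)),
      ← ENNReal.ofReal_add w0 w0, ← ENNReal.ofReal_add (by positivity) (mul_nonneg w0 d0)]
    congr 1
    ring
  have e2 : (∫⁻ s in Ioo A1 B1, ENNReal.ofReal (D s)) = 0 := by
    have h1 : (∫⁻ s in Ioo A1 B1, ENNReal.ofReal (W s * H s)) +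
      (∫⁻ s in Ioo A1 B1, ENNReal.ofReal (W s * H' s)) ≤ ENNReal.ofReal σ + ENNReal.ofReal σ :=
      add_le_add hI2 hI3
    rw [e1, hI1] at h1
    have h2 : ENNReal.ofReal σ + ENNReal.ofReal σ ≠ ⊤ := by
      exact ENNReal.add_ne_top.2 ⟨ENNReal.ofReal_ne_top, ENNReal.ofReal_ne_top⟩
    have h3 : ENNReal.ofReal σ + ENNReal.ofReal σ + (∫⁻ s in Ioo A1 B1, ENNReal.ofReal (D s)) ≤
        ENNReal.ofReal σ + ENNReal.ofReal σ + 0 := by
      rw [add_zero]
      exact h1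
    exact le_antisymm ((ENNReal.add_le_add_iff_left h2).1 h3) bot_le
  have e3 : D =ᵐ[volume.restrict (Ioo A1 B1)] fun _ => 0 := by
    rw [lintegral_eq_zero_iff' m3] at e2
    filter_upwards [e2, ae_restrict_mem measurableSet_Ioo] with s hs hsI
    have h1 : D s ≤ 0 := ENNReal.ofReal_eq_zero.1 hs
    have h2 : 0 ≤ D s := mul_nonneg (hWp s hsI).le (hD s hsI).1
    exact le_antisymm h1 h2
  have e4 : EqOn D (fun _ => 0) (Ioo A1 B1) :=
    Measure.eqOn_open_of_ae_eq e3 isOpen_Ioo hDc continuousOn_const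
  intro s hs
  apply (hD s hs).2
  have h1 : W s * (H s + H' s - 2) = 0 := e4 hs
  rcases mul_eq_zero.1 h1 with h2 | h2
  · exact absurd h2 (hWp s hs).ne'
  · exact h2

end Q94.CP
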