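import Pool.Agent.Q94.CP.Stm

/-! Job CP-13 (helper239): the diagonal section. -/

set_option autoImplicit false

open MeasureTheory Set

namespace Q94.CP

/-- affine substitution -/
theorem cv_up (g : ℝ → ENNReal) {a b : ℝ} (h : a < b) : (∫⁻ s in Ioo a b, g s) =
    ENNReal.ofReal (b - a) * ∫⁻ r in Ioo (0:ℝ) 1, g (a + r * (b - a)) := by
  have hba : 0 < b - a := by linarith
  have himg : (fun r : ℝ => a + r * (b - a)) '' Ioo (0:ℝ) 1 = Ioo a b := by
    ext s
    constructor
    · rintro ⟨r, ⟨h1, h2⟩, rfl⟩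
      simp only [mem_Ioo]
      constructor <;> nlinarith
    · rintro ⟨h1, h2⟩
      refine ⟨(s - a) / (b - a), ⟨div_pos (by linarith) hba, (div_lt_one hba).2 (by linarith)⟩, ?_⟩
      simp only
      field_simp
      ring
  have hder : ∀ r ∈ Ioo (0:ℝ) 1, HasDerivWithinAt (fun r : ℝ => a + r * (b - a)) (b - a) (Ioo 0 1) r := by
    intro r _
    have h1 : HasDerivAt (fun r : ℝ => a + r * (b - a)) (1 * (b - a)) r :=
      ((hasDerivAt_id r).mul_const (b - a)).const_add a
    rw [one_mul] at h1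
    exact h1.hasDerivWithinAt
  have hinj : InjOn (fun r : ℝ => a + r * (b - a)) (Ioo 0 1) := by
    intro r _ t _ hrt
    have h1 : r * (b - a) = t * (b - a) := by simpa using hrt
    exact mul_right_cancel₀ hba.ne' h1
  have h1 := lintegral_image_eq_lintegral_abs_deriv_mul (f' := fun _ => b - a) measurableSet_Ioo hder hinj g
  rw [himg, abs_of_pos hba] at h1
  rw [h1, lintegral_const_mul' _ _ ENNReal.ofReal_ne_top]

theorem x6 : X6 := by
  intro G P A B σ c hG hσ hc hA hAB hP hint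
  obtain ⟨-, -, -, hconc⟩ := hG
  have hB : 0 < B := hA.trans hAB
  have h1 := cv_up (fun s => ENNReal.ofReal (G s 0)) hAB
  rw [hint] at h1
  set I := ∫⁻ r in Ioo (0:ℝ) 1, ENNReal.ofReal (G (A + r * (B - A)) 0) with hI
  have hI0 : I ≠ 0 := by
    intro h
    rw [h, mul_zero] at h1
    exact (ENNReal.ofReal_pos.2 hσ).ne' h1
  have hIt : I ≠ ⊤ := by
    intro h
    rw [h, ENNReal.mul_top (ENNReal.ofReal_pos.2 (by linarith)).ne'] at h1
    exact ENNReal.ofReal_ne_top h1
  have hJ : I ≤ ∫⁻ r : ℝ, ENNReal.ofReal (G ((1 - r) * A) (r * B)) := by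
    refine le_trans ?_ (setLIntegral_le_lintegral (Ioo (0:ℝ) 1) _)
    refine setLIntegral_mono' measurableSet_Ioo fun r hr => ENNReal.ofReal_le_ofReal ?_
    set s := A + r * (B - A) with hs
    have hsm : s ∈ Ioo A B := by
      obtain ⟨h2, h3⟩ := hr
      rw [hs]
      constructor <;> nlinarith
    have hs0 : 0 < s := hA.trans hsm.1
    obtain ⟨hp1, hp2, hp3⟩ := hP s hsm
    have hx : 0 ≤ (1 - r) * A / s := div_nonneg (mul_nonneg (by linarith [hr.2]) hA.le) hs0.le
    have hy : 0 ≤ r * B / s := div_nonneg (mul_nonneg hr.1.le hB.le) hs0.le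
    have hxy : (1 - r) * A / s + r * B / s = 1 := by
      rw [← add_div, div_eq_one_iff_eq hs0.ne', hs]
      ring
    have h4 := hconc.2 hp1 hp2 hx hy hxy
    simp only [smul_eq_mul, Prod.smul_mk, Prod.mk_add_mk, mul_zero, add_zero, zero_add] at h4
    rw [div_mul_cancel₀ _ hs0.ne', div_mul_cancel₀ _ hs0.ne', ← hp3, ← add_mul, hxy, one_mul] at h4
    exact h4
  have hsq : B - A < Real.sqrt (A ^ 2 + B ^ 2 - 2 * A * B * c) := by
    rw [Real.lt_sqrt (by linarith)]
    have : 0 < 2 * (A * B) * (1 - c) := by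
      have := mul_pos hA hB
      have := sub_pos.2 hc
      positivity
    nlinarith
  calc ENNReal.ofReal σ = ENNReal.ofReal (B - A) * I := h1
    _ < ENNReal.ofReal (Real.sqrt (A ^ 2 + B ^ 2 - 2 * A * B * c)) * I := by
        refine ENNReal.mul_lt_mul_left hI0 hIt ?_
        exact (ENNReal.ofReal_lt_ofReal_iff (by linarith)).2 hsq
    _ ≤ _ := by gcongr

end Q94.CP
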