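import Pool.Agent.Q94.CP.Stm

/-! Job CP-14 (helper239): the parallel case of Meyer's theorem, first half. -/

set_option autoImplicit false

open MeasureTheory Set

namespace Q94.CP

theorem xp1 : XP1 := by
  intro G P A1 B1 A2 B2 σ T hG hσ hAB1 hAB2 h1 h2 hc1 hc2 hT hint hle
  obtain ⟨hG0, -, -, hconc⟩ := hG
  obtain ⟨hTd, hTm, -⟩ := hT
  have hTc : ContinuousOn T (Ioo A1 B1) := fun s hs => (hTd s hs).2.continuousAt.continuousWithinAt
  have hwc : ContinuousOn (fun s => G (T s) 1) (Ioo A1 B1) :=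
    ContinuousOn.comp (g := fun s => G s 1) hc2 hTc fun s hs => (hTd s hs).1
  have hwp : ∀ s ∈ Ioo A1 B1, 0 < G (T s) 1 := fun s hs => (h2 _ (hTd s hs).1).2
  have hder : ∀ s ∈ Ioo A1 B1, HasDerivWithinAt (fun s => (s + T s) / 2)
      ((1 + G s 0 / G (T s) 1) / 2) (Ioo A1 B1) s := fun s hs =>
    (((hasDerivAt_id s).add (hTd s hs).2).div_const 2).hasDerivWithinAt
  have hinj : InjOn (fun s => (s + T s) / 2) (Ioo A1 B1) := by
    have : StrictMonoOn (fun s => (s + T s) / 2) (Ioo A1 B1) := by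
      intro s hs t ht hst
      have := hTm hs ht hst
      simp only
      linarith
    exact this.injOn
  have h3 := lintegral_image_eq_lintegral_abs_deriv_mul measurableSet_Ioo hder hinj
    (fun x => ENNReal.ofReal (G x (1 / 2)))
  have h4 : (∫⁻ s in Ioo A1 B1, (ENNReal.ofReal (G s 0) +
      ENNReal.ofReal ((G s 0 - G (T s) 1) ^ 2 / (4 * G (T s) 1)))) ≤ ENNReal.ofReal σ := by
    refine le_trans ?_ ((setLIntegral_le_lintegral ((fun s => (s + T s) / 2) '' Ioo A1 B1) _).trans hle)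
    rw [h3]
    refine setLIntegral_mono' measurableSet_Ioo fun s hs => ?_
    have hW := (h1 s hs).2
    have hw := hwp s hs
    have hd0 : 0 ≤ (1 + G s 0 / G (T s) 1) / 2 := by positivity
    rw [← ENNReal.ofReal_add hW.le (by positivity), abs_of_nonneg hd0, ← ENNReal.ofReal_mul hd0]
    refine ENNReal.ofReal_le_ofReal ?_
    have h5 := hconc.2 (h1 s hs).1 (h2 _ (hTd s hs).1).1 (by norm_num : (0:ℝ) ≤ 1 / 2)
      (by norm_num : (0:ℝ) ≤ 1 / 2) (by norm_num)
    simp only [smul_eq_mul, Prod.smul_mk, Prod.mk_add_mk, mul_zero, zero_add, mul_one] at h5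
    have e1 : 1 / 2 * s + 1 / 2 * T s = (s + T s) / 2 := by ring
    rw [e1] at h5
    have e2 : G s 0 + (G s 0 - G (T s) 1) ^ 2 / (4 * G (T s) 1) =
        (1 + G s 0 / G (T s) 1) / 2 * (1 / 2 * G s 0 + 1 / 2 * G (T s) 1) := by
      field_simp
      ring
    rw [e2]
    exact mul_le_mul_of_nonneg_left h5 hd0
  have hm1 : AEMeasurable (fun s => ENNReal.ofReal (G s 0)) (volume.restrict (Ioo A1 B1)) :=
    (hc1.aemeasurable measurableSet_Ioo).ennreal_ofReal
  have hm2 : AEMeasurable (fun s => ENNReal.ofReal ((G s 0 - G (T s) 1) ^ 2 / (4 * G (T s) 1)))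
      (volume.restrict (Ioo A1 B1)) := by
    refine AEMeasurable.ennreal_ofReal (ContinuousOn.aemeasurable ?_ measurableSet_Ioo)
    refine ContinuousOn.div ((hc1.sub hwc).pow 2) (continuousOn_const.mul hwc) fun s hs => ?_
    have := hwp s hs
    positivity
  rw [lintegral_add_left' hm1, hint] at h4
  have h5 : (∫⁻ s in Ioo A1 B1, ENNReal.ofReal ((G s 0 - G (T s) 1) ^ 2 / (4 * G (T s) 1))) = 0 := by
    have : ENNReal.ofReal σ + (∫⁻ s in Ioo A1 B1,
        ENNReal.ofReal ((G s 0 - G (T s) 1) ^ 2 / (4 * G (T s) 1))) ≤ ENNReal.ofReal σ + 0 := by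
      rwa [add_zero]
    exact le_antisymm ((ENNReal.add_le_add_iff_left ENNReal.ofReal_ne_top).1 this) bot_le
  rw [lintegral_eq_zero_iff' hm2] at h5
  have h6 : (fun s => G s 0) =ᵐ[volume.restrict (Ioo A1 B1)] fun s => G (T s) 1 := by
    filter_upwards [h5, ae_restrict_mem measurableSet_Ioo] with s hs hsm
    have hw := hwp s hsm
    have h7 : (G s 0 - G (T s) 1) ^ 2 / (4 * G (T s) 1) ≤ 0 := ENNReal.ofReal_eq_zero.1 hs
    rw [div_le_iff₀ (by positivity), zero_mul] at h7
    have h8 : G s 0 - G (T s) 1 = 0 := by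
      have := le_antisymm h7 (sq_nonneg _)
      exact pow_eq_zero_iff (two_ne_zero) |>.1 this
    linarith
  have h7 := MeasureTheory.Measure.eqOn_open_of_ae_eq h6 isOpen_Ioo hc1 hwc
  have hconst : ∀ s ∈ Ioo A1 B1, ∀ t ∈ Ioo A1 B1, T s - s = T t - t := by
    intro s hs t ht
    have h8 := (convex_Ioo A1 B1).norm_image_sub_le_of_norm_hasDerivWithin_le
      (f := fun s => T s - s) (f' := fun _ => 0) (C := 0) (x := t) (y := s) (fun x hx => by
        have h9 : G x 0 / G (T x) 1 = 1 := by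
          have : G x 0 = G (T x) 1 := h7 hx
          rw [this]
          exact div_self (hwp x hx).ne'
        have h10 := (hTd x hx).2.sub (hasDerivAt_id x)
        rw [h9, sub_self] at h10
        exact h10.hasDerivWithinAt) (fun x _ => by simp) ht hs
    rw [zero_mul] at h8
    have h9 := norm_le_zero_iff.1 h8
    exact sub_eq_zero.1 h9
  set m := (A1 + B1) / 2 with hm
  have hmm : m ∈ Ioo A1 B1 := by
    rw [hm]
    constructor <;> linarith
  refine ⟨T m - m, fun s hs => ?_⟩
  have h8 : T s = s + (T m - m) := by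
    have := hconst s hs m hmm
    linarith
  refine ⟨h8, ?_⟩
  rw [← h8]
  exact (h7 hs).symm

end Q94.CP
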