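import Pool.Agent.Q94.CP.Stm

/-! Job CP-15 (helper239): the parallel case of Meyer's theorem, second half. -/

set_option autoImplicit false

open MeasureTheory Set

namespace Q94.CP

/-- affine substitution -/
theorem cv_gen (g : ℝ → ENNReal) {a b : ℝ} (h : a ≠ b) : (∫⁻ s in Ioo (min a b) (max a b), g s) =
    ENNReal.ofReal |b - a| * ∫⁻ r in Ioo (0:ℝ) 1, g (a + r * (b - a)) := by
  have hba : b - a ≠ 0 := sub_ne_zero.2 (Ne.symm h)
  have himg : (fun r : ℝ => a + r * (b - a)) '' Ioo (0:ℝ) 1 = Ioo (min a b) (max a b) := by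
    ext s
    constructor
    · rintro ⟨r, ⟨h1, h2⟩, rfl⟩
      simp only [mem_Ioo]
      rcases lt_or_gt_of_ne h with h3 | h3
      · rw [min_eq_left h3.le, max_eq_right h3.le]
        constructor <;> nlinarith
      · rw [min_eq_right h3.le, max_eq_left h3.le]
        constructor <;> nlinarith
    · rintro ⟨h1, h2⟩
      refine ⟨(s - a) / (b - a), ?_, ?_⟩
      · rcases lt_or_gt_of_ne h with h3 | h3
        · rw [min_eq_left h3.le] at h1
          rw [max_eq_right h3.le] at h2
          exact ⟨div_pos (by linarith) (by linarith), (div_lt_one (by linarith)).2 (by linarith)⟩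
        · rw [min_eq_right h3.le] at h1
          rw [max_eq_left h3.le] at h2
          exact ⟨div_pos_of_neg_of_neg (by linarith) (by linarith),
            (div_lt_one_of_neg (by linarith)).2 (by linarith)⟩
      · simp only
        field_simp
        ring
  have hder : ∀ r ∈ Ioo (0:ℝ) 1, HasDerivWithinAt (fun r : ℝ => a + r * (b - a)) (b - a) (Ioo 0 1) r := by
    intro r _
    have h1 : HasDerivAt (fun r : ℝ => a + r * (b - a)) (1 * (b - a)) r :=
      ((hasDerivAt_id r).mul_const (b - a)).const_add a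
    rw [one_mul] at h1
    exact h1.hasDerivWithinAt
  have hinj : InjOn (fun r : ℝ => a + r * (b - a)) (Ioo 0 1) := by
    intro r _ t _ hrt
    have h1 : r * (b - a) = t * (b - a) := by simpa using hrt
    exact mul_right_cancel₀ hba h1
  have h1 := lintegral_image_eq_lintegral_abs_deriv_mul (f' := fun _ => b - a) measurableSet_Ioo hder hinj g
  rw [himg] at h1
  rw [h1, lintegral_const_mul' _ _ ENNReal.ofReal_ne_top]

theorem xp2 : XP2 := by
  intro G P A B σ k β m hG hσ hm hAB hP hint hle
  obtain ⟨-, -, -, hconc⟩ := hG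
  have key : ∀ a b : ℝ, a ≠ b → min a b = A → max a b = B → |b - a| = B - A →
      Real.sqrt ((b + k - a + β) ^ 2 + m) ≤ B - A := by
    intro a b hab hmin hmax habs
    have h1 := cv_gen (fun s => ENNReal.ofReal (G s 0)) hab
    rw [hmin, hmax, hint, habs] at h1
    set I := ∫⁻ r in Ioo (0:ℝ) 1, ENNReal.ofReal (G (a + r * (b - a)) 0) with hI
    have hI0 : I ≠ 0 := by
      intro h
      rw [h, mul_zero] at h1
      exact (ENNReal.ofReal_pos.2 hσ).ne' h1
    have hIt : I ≠ ⊤ := by
      intro h
      rw [h, ENNReal.mul_top (ENNReal.ofReal_pos.2 (by linarith)).ne'] at h1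
      exact ENNReal.ofReal_ne_top h1
    have hJ : I ≤ ∫⁻ r : ℝ, ENNReal.ofReal (G (a + r * (b + k - a)) r) := by
      refine le_trans ?_ (setLIntegral_le_lintegral (Ioo (0:ℝ) 1) _)
      refine setLIntegral_mono' measurableSet_Ioo fun r hr => ENNReal.ofReal_le_ofReal ?_
      have hsm : a + r * (b - a) ∈ Ioo A B := by
        obtain ⟨h2, h3⟩ := hr
        rw [← hmin, ← hmax]
        rcases lt_or_gt_of_ne hab with h4 | h4
        · rw [min_eq_left h4.le, max_eq_right h4.le]
          constructor <;> nlinarith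
        · rw [min_eq_right h4.le, max_eq_left h4.le]
          constructor <;> nlinarith
      obtain ⟨hp1, hp2, hp3⟩ := hP _ hsm
      have h4 := hconc.2 hp1 hp2 (sub_nonneg.2 hr.2.le) hr.1.le (by ring : (1 - r) + r = 1)
      simp only [smul_eq_mul, Prod.smul_mk, Prod.mk_add_mk, mul_zero, zero_add, mul_one] at h4
      rw [hp3] at h4
      have e1 : (1 - r) * (a + r * (b - a)) + r * (a + r * (b - a) + k) = a + r * (b + k - a) := by ring
      have e2 : ∀ x : ℝ, (1 - r) * x + r * x = x := fun x => by ring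
      rw [e1, e2] at h4
      exact h4
    have h5 : ENNReal.ofReal (Real.sqrt ((b + k - a + β) ^ 2 + m)) * I ≤ ENNReal.ofReal (B - A) * I := by
      rw [← h1]
      refine le_trans ?_ (hle a (b + k))
      gcongr
    have h6 : ENNReal.ofReal (Real.sqrt ((b + k - a + β) ^ 2 + m)) ≤ ENNReal.ofReal (B - A) :=
      (ENNReal.mul_le_mul_iff_left hI0 hIt).1 h5
    exact (ENNReal.ofReal_le_ofReal_iff (by linarith)).1 h6
  have h1 := key A B hAB.ne (min_eq_left hAB.le) (max_eq_right hAB.le) (abs_of_pos (by linarith))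
  have h2 := key B A hAB.ne' (min_eq_right hAB.le) (max_eq_left hAB.le)
    (by rw [abs_of_neg (by linarith)]; ring)
  have h3 := (Real.sqrt_le_left (by linarith)).1 h1
  have h4 := (Real.sqrt_le_left (by linarith)).1 h2
  nlinarith [sq_nonneg (k + β)]

end Q94.CP
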