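import Mathlib

/-!
# Three convex pieces of smaller maximal section: definitions and lemma statements

Row MP_fa9df5_co.  Every convex body of space can be dissected into three convex pieces
whose maximal plane sections are smaller than that of the body.  Paper proof of helper136.
All lemma statements are `Prop`s, so that they can be used as hypotheses of one another.
-/

open MeasureTheory Set

namespace Q94.CP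

/-- Euclidean space. -/
abbrev E := EuclideanSpace ℝ (Fin 3)

/-- The part of `K` in the plane through `p` with directions `d`, `e`, in coordinates. -/
def chart (K : Set E) (p d e : E) : Set (ℝ × ℝ) := {x | p + x.1 • d + x.2 • e ∈ K}

/-- Its area. -/
noncomputable def area (K : Set E) (p d e : E) : ENNReal := volume (chart K p d e)

/-- Orthonormal pairs of directions. -/
def ON (d e : E) : Prop := ‖d‖ = 1 ∧ ‖e‖ = 1 ∧ inner ℝ d e = 0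

/-- Supremum of the areas of the plane sections. -/
noncomputable def sig (K : Set E) : ENNReal :=
  ⨆ (p : E) (d : E) (e : E) (_ : ON d e), area K p d e

/-- Convex bodies. -/
def Body (D : Set E) : Prop := Convex ℝ D ∧ IsCompact D ∧ (interior D).Nonempty

/-- Base point and two directions. -/
abbrev Fr := E × E × E

/-- The section of `D` by the plane of `f`. -/
def Sec (D : Set E) (f : Fr) : Set E :=
  {z | z ∈ D ∧ ∃ x : ℝ × ℝ, z = f.1 + x.1 • f.2.1 + x.2 • f.2.2}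

/-- Frames of the plane sections of maximal area. -/
def Mx (D : Set E) : Set Fr :=
  {f | f.1 ∈ D ∧ ON f.2.1 f.2.2 ∧ area D f.1 f.2.1 f.2.2 = sig D}

/-- Length of the fibre of `D` over `x` in the direction `v`. -/
noncomputable def wd (D : Set E) (v x : E) : ℝ := (volume {t : ℝ | x + t • v ∈ D}).toReal

/-- Points whose line in the direction `v` meets `D`. -/
def Pj (D : Set E) (v : E) : Set E := {x | ∃ t : ℝ, x + t • v ∈ D}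

/-- Planar data: a nonnegative function vanishing off the compact convex set `P`, concave
on `P`. -/
def Pl (G : ℝ → ℝ → ℝ) (P : Set (ℝ × ℝ)) : Prop :=
  (∀ x y, 0 ≤ G x y) ∧ (∀ x y, (x, y) ∉ P → G x y = 0) ∧ IsCompact P ∧
    ConcaveOn ℝ P (fun z => G z.1 z.2)

/-- Transport map from `(A1, B1)` to `(A2, B2)`. -/
def Tr (W1 : ℝ → ℝ) (A1 B1 : ℝ) (W2 : ℝ → ℝ) (A2 B2 : ℝ) (T : ℝ → ℝ) : Prop :=
  (∀ s ∈ Ioo A1 B1, T s ∈ Ioo A2 B2 ∧ HasDerivAt T (W1 s / W2 (T s)) s) ∧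
    StrictMonoOn T (Ioo A1 B1) ∧ T '' (Ioo A1 B1) = Ioo A2 B2

/-! ### Group A: areas, compactness -/

def A1a : Prop := ∀ K : Set E, IsCompact K → sig K ≠ ⊤

def A1b : Prop := ∀ D : Set E, Body D → sig D ≠ 0

def A1c : Prop := ∀ (K : Set E) (p d e : E) (s t : ℝ),
  area K (p + s • d + t • e) d e = area K p d e

def A1d : Prop := ∀ D K : Set E, IsCompact D → IsCompact K → ∃ R : ℝ, ∀ p ∈ D, ∀ d e : E,
  ON d e → chart K p d e ⊆ Icc (-R, -R) (R, R)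

def A1e : Prop := (∀ (K : Set E) (p d e : E), IsCompact K → ON d e → IsCompact (chart K p d e)) ∧
  (∀ (K : Set E) (p d e : E), Convex ℝ K → Convex ℝ (chart K p d e))

/-- Upper semicontinuity of the area. -/
def A2 : Prop := ∀ D K : Set E, IsCompact D → IsCompact K → ∀ c : ENNReal,
  IsCompact {f : Fr | f.1 ∈ D ∧ ON f.2.1 f.2.2 ∧ c ≤ area K f.1 f.2.1 f.2.2}

/-- The supremum is attained. -/
def A3 : Prop := ∀ K : Set E, IsCompact K → sig K ≠ 0 →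
  ∃ f : Fr, f.1 ∈ K ∧ ON f.2.1 f.2.2 ∧ area K f.1 f.2.1 f.2.2 = sig K

def A4 : Prop := ∀ D : Set E, Body D → ∀ K : Set E, IsClosed K → Convex ℝ K → ∀ f : Fr,
  f.1 ∈ D → ON f.2.1 f.2.2 → sig D ≤ area (D ∩ K) f.1 f.2.1 f.2.2 → f ∈ Mx D ∧ Sec D f ⊆ K

def A5 : Prop := ∀ D : Set E, Body D → ∀ K : Set E, IsClosed K → Convex ℝ K →
  IsCompact {f : Fr | f ∈ Mx D ∧ Sec D f ⊆ K}

def A6 : Prop := ∀ D : Set E, Body D → ∀ K : Set E, IsClosed K → Convex ℝ K → K ⊆ D →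
  (∀ f ∈ Mx D, ¬ Sec D f ⊆ K) → sig K < sig D

/-- Nested closed convex sets, each containing a maximal section. -/
def A7 : Prop := ∀ D : Set E, Body D → ∀ K : ℕ → Set E, (∀ n, IsClosed (K n)) →
  (∀ n, Convex ℝ (K n)) → Antitone K → (∀ n, ∃ f ∈ Mx D, Sec D f ⊆ K n) →
  ∃ f ∈ Mx D, Sec D f ⊆ ⋂ n, K n

def A8 : Prop := ∀ D : Set E, Body D → (Mx D).Nonempty

/-! ### Group B: geometry of the fibre lengths -/

def B1 : Prop := ∀ D : Set E, IsCompact D → ∀ p d v : E, v ≠ 0 →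
  area D p d v = ∫⁻ s : ℝ, ENNReal.ofReal (wd D v (p + s • d))

def B2 : Prop := ∀ D : Set E, IsCompact D → Convex ℝ D → ∀ v : E, v ≠ 0 →
  (∀ (x : E) (t : ℝ), wd D v (x + t • v) = wd D v x) ∧ (∀ x, 0 ≤ wd D v x) ∧
  (∀ x, x ∉ Pj D v → wd D v x = 0) ∧ ConcaveOn ℝ (Pj D v) (wd D v)

/-- Sections through a line of direction `v` are bounded by `sig D`. -/
def B3 : Prop := ∀ D : Set E, IsCompact D → ∀ v : E, ‖v‖ = 1 → ∀ p u : E, inner ℝ u v = 0 →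
  ENNReal.ofReal ‖u‖ * (∫⁻ r : ℝ, ENNReal.ofReal (wd D v (p + r • u))) ≤ sig D

/-- Planar data obtained from a body. -/
def B4 : Prop := ∀ D : Set E, IsCompact D → Convex ℝ D → ∀ v a b p : E, ‖v‖ = 1 →
  inner ℝ a v = 0 → inner ℝ b v = 0 → (inner ℝ a b) ^ 2 < ‖a‖ ^ 2 * ‖b‖ ^ 2 →
  Pl (fun x y => wd D v (p + x • a + y • b)) {z : ℝ × ℝ | p + z.1 • a + z.2 • b ∈ Pj D v}

/-- Change of frame in a plane. -/
def B7 : Prop := ∀ (d e v : E) (v1 v2 : ℝ), ON d e → v = v1 • d + v2 • e → ‖v‖ = 1 →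
  ∃ a : E, ON a v ∧ (∀ (K : Set E) (p : E), area K p a v = area K p d e) ∧
    ∀ p z : E, (∃ x : ℝ × ℝ, z = p + x.1 • d + x.2 • e) ↔ (∃ x : ℝ × ℝ, z = p + x.1 • a + x.2 • v)

/-- Two planes share a direction. -/
def B8 : Prop := ∀ d e d' e' : E, ON d e → ON d' e' →
  ∃ (v : E) (v1 v2 v1' v2' : ℝ), ‖v‖ = 1 ∧ v = v1 • d + v2 • e ∧ v = v1' • d' + v2' • e'

/-- Sign change. -/
def B9 : Prop := ∀ (K : Set E) (p d e : E), area K p (-d) e = area K p d e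

/-- Meyer's theorem: two maximal sections meet. -/
def B : Prop := ∀ D : Set E, Body D → ∀ f ∈ Mx D, ∀ g ∈ Mx D, (Sec D f ∩ Sec D g).Nonempty

/-! ### Group X: one-dimensional mass transport -/

def X1 : Prop := ∀ (W : ℝ → ℝ) (I : Set ℝ) (σ : ℝ), 0 < σ → IsCompact I → ConcaveOn ℝ I W →
  (∀ s, 0 ≤ W s) → (∀ s, s ∉ I → W s = 0) → (∫⁻ s, ENNReal.ofReal (W s)) = ENNReal.ofReal σ →
  ∃ A B : ℝ, A < B ∧ I = Icc A B ∧ ContinuousOn W (Ioo A B) ∧ (∀ s ∈ Ioo A B, 0 < W s) ∧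
    (∫⁻ s in Ioo A B, ENNReal.ofReal (W s)) = ENNReal.ofReal σ

def X2 : Prop := ∀ (W1 W2 : ℝ → ℝ) (A1 B1 A2 B2 σ : ℝ), 0 < σ → A1 < B1 → A2 < B2 →
  ContinuousOn W1 (Ioo A1 B1) → ContinuousOn W2 (Ioo A2 B2) →
  (∀ s ∈ Ioo A1 B1, 0 < W1 s) → (∀ s ∈ Ioo A2 B2, 0 < W2 s) →
  (∫⁻ s in Ioo A1 B1, ENNReal.ofReal (W1 s)) = ENNReal.ofReal σ →
  (∫⁻ s in Ioo A2 B2, ENNReal.ofReal (W2 s)) = ENNReal.ofReal σ →
  ∃ T : ℝ → ℝ, Tr W1 A1 B1 W2 A2 B2 T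

def X3 : Prop := ∀ (G : ℝ → ℝ → ℝ) (P : Set (ℝ × ℝ)) (A1 B1 A2 B2 h : ℝ) (T : ℝ → ℝ), Pl G P →
  0 < A1 → A1 < B1 → 0 < A2 → A2 < B2 → 0 < h → 2 * h ≤ A2 →
  (∀ s ∈ Ioo A1 B1, (s, 0) ∈ P ∧ 0 < G s 0) → (∀ s ∈ Ioo A2 B2, (0, s) ∈ P ∧ 0 < G 0 s) →
  Tr (fun s => G s 0) A1 B1 (fun s => G 0 s) A2 B2 T →
  (∫⁻ s in Ioo A1 B1, ENNReal.ofReal (G s 0 * (1 + 2 * (h / T s) * (Real.sqrt (s / T s) - 1))))
    ≤ ∫⁻ y, ENNReal.ofReal (G y h)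

def X4 : Prop := ∀ (G : ℝ → ℝ → ℝ) (P : Set (ℝ × ℝ)) (A1 B1 A2 B2 h : ℝ) (T : ℝ → ℝ), Pl G P →
  0 < A1 → A1 < B1 → 0 < A2 → A2 < B2 → 0 < h → 2 * h ≤ A1 →
  (∀ s ∈ Ioo A1 B1, (s, 0) ∈ P ∧ 0 < G s 0) → (∀ s ∈ Ioo A2 B2, (0, s) ∈ P ∧ 0 < G 0 s) →
  Tr (fun s => G s 0) A1 B1 (fun s => G 0 s) A2 B2 T →
  (∫⁻ s in Ioo A1 B1, ENNReal.ofReal (G s 0 * (1 + 2 * (h / s) * (Real.sqrt (T s / s) - 1))))
    ≤ ∫⁻ y, ENNReal.ofReal (G h y)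

def X5 : Prop := ∀ (W T : ℝ → ℝ) (A1 B1 A2 B2 h σ : ℝ), 0 < A1 → A1 < B1 → 0 < A2 → A2 < B2 →
  0 < h → 2 * h ≤ A1 → 2 * h ≤ A2 → ContinuousOn W (Ioo A1 B1) → (∀ s ∈ Ioo A1 B1, 0 < W s) →
  ContinuousOn T (Ioo A1 B1) → (∀ s ∈ Ioo A1 B1, T s ∈ Ioo A2 B2) →
  (∫⁻ s in Ioo A1 B1, ENNReal.ofReal (W s)) = ENNReal.ofReal σ →
  (∫⁻ s in Ioo A1 B1, ENNReal.ofReal (W s * (1 + 2 * (h / T s) * (Real.sqrt (s / T s) - 1))))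
    ≤ ENNReal.ofReal σ →
  (∫⁻ s in Ioo A1 B1, ENNReal.ofReal (W s * (1 + 2 * (h / s) * (Real.sqrt (T s / s) - 1))))
    ≤ ENNReal.ofReal σ →
  ∀ s ∈ Ioo A1 B1, T s = s

def X6 : Prop := ∀ (G : ℝ → ℝ → ℝ) (P : Set (ℝ × ℝ)) (A B σ c : ℝ), Pl G P → 0 < σ → c < 1 →
  0 < A → A < B → (∀ s ∈ Ioo A B, (s, 0) ∈ P ∧ (0, s) ∈ P ∧ G s 0 = G 0 s) →
  (∫⁻ s in Ioo A B, ENNReal.ofReal (G s 0)) = ENNReal.ofReal σ →
  ENNReal.ofReal σ < ENNReal.ofReal (Real.sqrt (A ^ 2 + B ^ 2 - 2 * A * B * c)) *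
    (∫⁻ r : ℝ, ENNReal.ofReal (G ((1 - r) * A) (r * B)))

/-- The cross lemma. -/
def XC : Prop := ∀ (G : ℝ → ℝ → ℝ) (P : Set (ℝ × ℝ)) (σ c : ℝ), Pl G P → 0 < σ → c < 1 →
  (∀ s, (s, (0 : ℝ)) ∈ P → 0 < s) → (∀ s, ((0 : ℝ), s) ∈ P → 0 < s) →
  (∫⁻ s, ENNReal.ofReal (G s 0)) = ENNReal.ofReal σ →
  (∫⁻ s, ENNReal.ofReal (G 0 s)) = ENNReal.ofReal σ →
  (∀ h : ℝ, (∫⁻ s, ENNReal.ofReal (G s h)) ≤ ENNReal.ofReal σ) →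
  (∀ h : ℝ, (∫⁻ s, ENNReal.ofReal (G h s)) ≤ ENNReal.ofReal σ) →
  (∀ A B : ℝ, 0 < A → A < B → ENNReal.ofReal (Real.sqrt (A ^ 2 + B ^ 2 - 2 * A * B * c)) *
    (∫⁻ r : ℝ, ENNReal.ofReal (G ((1 - r) * A) (r * B))) ≤ ENNReal.ofReal σ) → False

def XP1 : Prop := ∀ (G : ℝ → ℝ → ℝ) (P : Set (ℝ × ℝ)) (A1 B1 A2 B2 σ : ℝ) (T : ℝ → ℝ),
  Pl G P → 0 < σ → A1 < B1 → A2 < B2 →
  (∀ s ∈ Ioo A1 B1, (s, 0) ∈ P ∧ 0 < G s 0) → (∀ s ∈ Ioo A2 B2, (s, 1) ∈ P ∧ 0 < G s 1) →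
  ContinuousOn (fun s => G s 0) (Ioo A1 B1) → ContinuousOn (fun s => G s 1) (Ioo A2 B2) →
  Tr (fun s => G s 0) A1 B1 (fun s => G s 1) A2 B2 T →
  (∫⁻ s in Ioo A1 B1, ENNReal.ofReal (G s 0)) = ENNReal.ofReal σ →
  (∫⁻ s, ENNReal.ofReal (G s (1 / 2))) ≤ ENNReal.ofReal σ →
  ∃ k : ℝ, ∀ s ∈ Ioo A1 B1, T s = s + k ∧ G (s + k) 1 = G s 0

def XP2 : Prop := ∀ (G : ℝ → ℝ → ℝ) (P : Set (ℝ × ℝ)) (A B σ k β m : ℝ), Pl G P → 0 < σ →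
  0 < m → A < B → (∀ s ∈ Ioo A B, (s, 0) ∈ P ∧ (s + k, 1) ∈ P ∧ G (s + k) 1 = G s 0) →
  (∫⁻ s in Ioo A B, ENNReal.ofReal (G s 0)) = ENNReal.ofReal σ →
  (∀ x0 x1 : ℝ, ENNReal.ofReal (Real.sqrt ((x1 - x0 + β) ^ 2 + m)) *
    (∫⁻ r : ℝ, ENNReal.ofReal (G (x0 + r * (x1 - x0)) r)) ≤ ENNReal.ofReal σ) → False

/-- The parallel lemma. -/
def XP : Prop := ∀ (G : ℝ → ℝ → ℝ) (P : Set (ℝ × ℝ)) (σ β m : ℝ), Pl G P → 0 < σ → 0 < m →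
  (∫⁻ s, ENNReal.ofReal (G s 0)) = ENNReal.ofReal σ →
  (∫⁻ s, ENNReal.ofReal (G s 1)) = ENNReal.ofReal σ →
  (∫⁻ s, ENNReal.ofReal (G s (1 / 2))) ≤ ENNReal.ofReal σ →
  (∀ x0 x1 : ℝ, ENNReal.ofReal (Real.sqrt ((x1 - x0 + β) ^ 2 + m)) *
    (∫⁻ r : ℝ, ENNReal.ofReal (G (x0 + r * (x1 - x0)) r)) ≤ ENNReal.ofReal σ) → False

/-! ### Group C: the common point -/

def C : Prop := ∀ (ι : Type) (S : ι → Set E) (R : ℝ), Nonempty ι →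
  (∀ i, (S i).Nonempty ∧ IsClosed (S i) ∧ Convex ℝ (S i) ∧ S i ⊆ Metric.closedBall 0 R) →
  ∃ (u p : E) (b : ℝ), u ≠ 0 ∧ inner ℝ u p = b ∧
    (∀ r : ℝ, 0 < r → ∃ i, S i ⊆ {x | inner ℝ u x ≤ b + r}) ∧
    (∀ i, S i ⊆ {x | inner ℝ u x ≤ b} → p ∈ S i)

/-! ### Group D: assembly -/

def D1 : Prop := ∀ D : Set E, Body D → ∀ f ∈ Mx D,
  (∀ (u : E) (b : ℝ), u ≠ 0 → Sec D f ⊆ {x | inner ℝ u x = b} →
    ∀ x ∈ D, inner ℝ u x = b → x ∈ Sec D f) ∧ (∀ p : E, ∃ x ∈ Sec D f, x ≠ p)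

/-- Section sets are closed and convex. -/
def D2 : Prop := ∀ D : Set E, Body D → ∀ f : Fr, ON f.2.1 f.2.2 →
  IsClosed (Sec D f) ∧ Convex ℝ (Sec D f)

/-- The theorem. -/
def Main : Prop := ∀ D : Set E, Body D → ∃ D1 D2 D3 : Set E,
  (IsClosed D1 ∧ Convex ℝ D1) ∧ (IsClosed D2 ∧ Convex ℝ D2) ∧ (IsClosed D3 ∧ Convex ℝ D3) ∧
  D1 ∪ D2 ∪ D3 = D ∧ Disjoint (interior D1) (interior D2) ∧
  Disjoint (interior D1) (interior D3) ∧ Disjoint (interior D2) (interior D3) ∧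
  sig D1 < sig D ∧ sig D2 < sig D ∧ sig D3 < sig D

end Q94.CP
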