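import Mathlib
import Pool.Agent.Q94.CP.Stm

/-!
# Job CP-16: common point of extremal members of a family of convex sets
-/

open MeasureTheory Set Filter Topology

namespace Q94.CP

/-- support function of a set -/
noncomputable def spp (S : Set E) (w : E) : ℝ := sSup ((fun x => inner ℝ w x) '' S)

section

variable {S : Set E} {R : ℝ}

theorem spp_abs_le (hB : S ⊆ Metric.closedBall 0 R) (w : E) {x : E} (hx : x ∈ S) :
    |(inner ℝ w x : ℝ)| ≤ R * ‖w‖ := by
  have h1 := abs_real_inner_le_norm w x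
  have h2 : ‖x‖ ≤ R := by simpa using hB hx
  nlinarith [norm_nonneg w]

theorem spp_bdd (hB : S ⊆ Metric.closedBall 0 R) (w : E) :
    BddAbove ((fun x => (inner ℝ w x : ℝ)) '' S) := by
  refine ⟨R * ‖w‖, ?_⟩
  rintro _ ⟨x, hx, rfl⟩
  exact (abs_le.1 (spp_abs_le hB w hx)).2

theorem le_spp (hB : S ⊆ Metric.closedBall 0 R) (w : E) {x : E} (hx : x ∈ S) :
    (inner ℝ w x : ℝ) ≤ spp S w := le_csSup (spp_bdd hB w) ⟨x, hx, rfl⟩

theorem spp_le (hS : S.Nonempty) (w : E) {c : ℝ} (h : ∀ x ∈ S, (inner ℝ w x : ℝ) ≤ c) :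
    spp S w ≤ c := by
  refine csSup_le (hS.image _) ?_
  rintro _ ⟨x, hx, rfl⟩
  exact h x hx

theorem neg_le_spp (hS : S.Nonempty) (hB : S ⊆ Metric.closedBall 0 R) (w : E) :
    -(R * ‖w‖) ≤ spp S w := by
  obtain ⟨x, hx⟩ := hS
  exact (abs_le.1 (spp_abs_le hB w hx)).1.trans (le_spp hB w hx)

theorem spp_lip (hS : S.Nonempty) (hB : S ⊆ Metric.closedBall 0 R) (w w' : E) :
    spp S w ≤ spp S w' + R * ‖w - w'‖ := by
  refine spp_le hS w fun x hx => ?_
  have h1 := le_spp hB w' hx
  have h2 := (abs_le.1 (spp_abs_le hB (w - w') hx)).2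
  rw [inner_sub_left] at h2
  linarith

theorem spp_add (hS : S.Nonempty) (hB : S ⊆ Metric.closedBall 0 R) (w w' : E) {t : ℝ}
    (ht : 0 ≤ t) : spp S (w + t • w') ≤ spp S w + t * spp S w' := by
  refine spp_le hS _ fun x hx => ?_
  have h1 := le_spp hB w hx
  have h2 := le_spp hB w' hx
  rw [inner_add_left, real_inner_smul_left]
  nlinarith

theorem spp_smul (hS : S.Nonempty) (hB : S ⊆ Metric.closedBall 0 R) (w : E) {t : ℝ}
    (ht : 0 < t) : spp S (t • w) = t * spp S w := by
  apply le_antisymm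
  · refine spp_le hS _ fun x hx => ?_
    rw [real_inner_smul_left]
    exact mul_le_mul_of_nonneg_left (le_spp hB w hx) ht.le
  · rw [← le_div_iff₀' ht]
    refine spp_le hS _ fun x hx => ?_
    rw [le_div_iff₀' ht, ← real_inner_smul_left]
    exact le_spp hB _ hx

end

theorem c : C := by
  intro ι S R hne hS
  -- the infimum of the support functions
  set b : E → ℝ := fun w => ⨅ i, spp (S i) w with hb
  have hbdd : ∀ w, BddBelow (Set.range fun i => spp (S i) w) := by
    intro w
    refine ⟨-(R * ‖w‖), ?_⟩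
    rintro _ ⟨i, rfl⟩
    exact neg_le_spp (hS i).1 (hS i).2.2.2 w
  have hR : 0 ≤ R := by
    obtain ⟨x, hx⟩ := (hS hne.some).1
    have h1 : ‖x‖ ≤ R := by simpa using (hS hne.some).2.2.2 hx
    exact (norm_nonneg x).trans h1
  have hble : ∀ w w' : E, b w ≤ b w' + R * ‖w - w'‖ := by
    intro w w'
    have h1 : b w - R * ‖w - w'‖ ≤ b w' := by
      refine le_ciInf fun i => ?_
      have h2 : b w ≤ spp (S i) w := ciInf_le (hbdd w) i
      have h3 := spp_lip (hS i).1 (hS i).2.2.2 w w'
      linarith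
    linarith
  have hlip : LipschitzWith R.toNNReal b := by
    refine LipschitzWith.of_dist_le_mul fun w w' => ?_
    rw [Real.coe_toNNReal _ hR, Real.dist_eq, dist_eq_norm, abs_le]
    have h1 := hble w w'
    have h2 := hble w' w
    rw [norm_sub_rev] at h2
    constructor <;> linarith
  have hae : ∀ᵐ w : E, DifferentiableAt ℝ b w := hlip.ae_differentiableAt
  have hae0 : ∀ᵐ w : E, w ≠ 0 := by
    have h1 : ({0}ᶜ : Set E) ∈ ae (volume : Measure E) :=
      compl_mem_ae_iff.2 (measure_singleton 0)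
    exact h1
  obtain ⟨u, hu, hu0⟩ := (hae.and hae0).exists
  set p : E := (InnerProductSpace.toDual ℝ E).symm (fderiv ℝ b u) with hp
  have hpw : ∀ w : E, (inner ℝ p w : ℝ) = fderiv ℝ b u w := by
    intro w
    rw [hp, InnerProductSpace.toDual_symm_apply]
  have hline : ∀ w : E, HasLineDerivAt ℝ b (inner ℝ p w) u w := by
    intro w
    rw [hpw w]
    exact hu.hasFDerivAt.hasLineDerivAt w
  have hbs : ∀ (w : E) (t : ℝ), 0 < t → b (t • w) = t * b w := by
    intro w t ht
    simp only [hb]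
    rw [Real.mul_iInf_of_nonneg ht.le]
    exact iInf_congr fun i => spp_smul (hS i).1 (hS i).2.2.2 w ht
  have hup : (inner ℝ u p : ℝ) = b u := by
    have h1 : HasDerivAt (fun t : ℝ => b (u + t • u)) (inner ℝ p u) 0 := hline u
    have h2 : HasDerivAt (fun t : ℝ => (1 + t) * b u) (1 * b u) 0 :=
      ((hasDerivAt_id (0 : ℝ)).const_add 1).mul_const (b u)
    have h3 : (fun t : ℝ => b (u + t • u)) =ᶠ[𝓝 0] fun t : ℝ => (1 + t) * b u := by
      filter_upwards [Ioi_mem_nhds (show (-1 : ℝ) < 0 by norm_num)] with t ht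
      have h4 : u + t • u = (1 + t) • u := by rw [add_smul, one_smul]
      rw [h4]
      exact hbs u (1 + t) (by simp only [Set.mem_Ioi] at ht; linarith)
    rw [real_inner_comm, h1.unique (h2.congr_of_eventuallyEq h3), one_mul]
  refine ⟨u, p, b u, hu0, hup, fun r hr => ?_, fun i hi => ?_⟩
  · obtain ⟨i, hi⟩ := exists_lt_of_ciInf_lt (show (⨅ i, spp (S i) u) < b u + r by
      change b u < b u + r
      linarith)
    refine ⟨i, fun x hx => ?_⟩
    exact (le_spp (hS i).2.2.2 u hx).trans hi.le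
  · have hhu : spp (S i) u ≤ b u := spp_le (hS i).1 u fun x hx => hi hx
    have hpw2 : ∀ w : E, (inner ℝ p w : ℝ) ≤ spp (S i) w := by
      intro w
      refine le_of_tendsto (hline w).tendsto_slope_zero_right ?_
      filter_upwards [self_mem_nhdsWithin] with t ht
      have ht0 : (0 : ℝ) < t := ht
      have h1 : b (u + t • w) ≤ spp (S i) (u + t • w) := ciInf_le (hbdd _) i
      have h2 := spp_add (hS i).1 (hS i).2.2.2 u w ht0.le
      rw [smul_eq_mul, inv_mul_le_iff₀ ht0]
      linarith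
    by_contra hpi
    obtain ⟨f, c, hf1, hf2⟩ := geometric_hahn_banach_closed_point (hS i).2.2.1 (hS i).2.1 hpi
    set w : E := (InnerProductSpace.toDual ℝ E).symm f with hw
    have hfw : ∀ x : E, (inner ℝ w x : ℝ) = f x := by
      intro x
      rw [hw, InnerProductSpace.toDual_symm_apply]
    have h1 : spp (S i) w ≤ c := spp_le (hS i).1 w fun x hx => by
      rw [hfw]
      exact (hf1 x hx).le
    have h2 := hpw2 w
    rw [real_inner_comm, hfw] at h2
    linarith

end Q94.CP
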