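import Pool.Agent.Q94.CP.K4

/-! # Row MP_fa9df5_co, job CP-17: sections inside a plane (helper206) -/

open MeasureTheory Set

namespace Q94.CP

/-- four pairwise orthogonal vectors of space: one of them vanishes -/
theorem k17_four {u d e r : E} (hu : u ≠ 0) (hd : d ≠ 0) (he : e ≠ 0) (h1 : inner ℝ u d = 0)
    (h2 : inner ℝ u e = 0) (h3 : inner ℝ d e = 0) (h4 : inner ℝ u r = 0) (h5 : inner ℝ d r = 0)
    (h6 : inner ℝ e r = 0) : r = 0 := by
  by_contra hr
  have hz : ∀ i, (![u, d, e, r] : Fin 4 → E) i ≠ 0 := by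
    intro i; fin_cases i
    · exact hu
    · exact hd
    · exact he
    · exact hr
  have h1' : inner ℝ d u = 0 := by rw [real_inner_comm]; exact h1
  have h2' : inner ℝ e u = 0 := by rw [real_inner_comm]; exact h2
  have h3' : inner ℝ e d = 0 := by rw [real_inner_comm]; exact h3
  have h4' : inner ℝ r u = 0 := by rw [real_inner_comm]; exact h4
  have h5' : inner ℝ r d = 0 := by rw [real_inner_comm]; exact h5
  have h6' : inner ℝ r e = 0 := by rw [real_inner_comm]; exact h6
  have ho : Pairwise fun i j => inner ℝ ((![u, d, e, r] : Fin 4 → E) i) ((![u, d, e, r] : Fin 4 → E) j) = 0 := by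
    intro i j hij
    fin_cases i <;> fin_cases j <;> first
      | exact absurd rfl hij
      | exact h1
      | exact h2
      | exact h3
      | exact h4
      | exact h5
      | exact h6
      | exact h1'
      | exact h2'
      | exact h3'
      | exact h4'
      | exact h5'
      | exact h6'
  have hli := linearIndependent_of_ne_zero_of_inner_eq_zero hz ho
  have := hli.fintype_card_le_finrank
  simp at this

theorem d1 (h1b : A1b) (h1e : A1e) : D1 := by
  intro D hD f hf
  obtain ⟨hfD, hon, hfa⟩ := hf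
  have hs0 := h1b D hD
  obtain ⟨hDv, hDc, hDi⟩ := hD
  have hXc := h1e.1 D f.1 f.2.1 f.2.2 hDc hon
  have hXv := h1e.2 D f.1 f.2.1 f.2.2 hDv
  have hvX : volume (chart D f.1 f.2.1 f.2.2) = sig D := hfa
  obtain ⟨⟨x, hx⟩, -⟩ := k4_interior hXv hXc.isClosed (by rw [hvX]; exact hs0)
  obtain ⟨ε, hε, hball⟩ := Metric.isOpen_iff.1 isOpen_interior x hx
  obtain ⟨hd1, he1, hde⟩ := hon
  have hd0 : f.2.1 ≠ 0 := by
    intro h; rw [h, norm_zero] at hd1; exact zero_ne_one hd1
  have he0 : f.2.2 ≠ 0 := by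
    intro h; rw [h, norm_zero] at he1; exact zero_ne_one he1
  -- three points
  have p0 : x ∈ chart D f.1 f.2.1 f.2.2 := interior_subset hx
  have p1 : (x.1 + ε / 2, x.2) ∈ chart D f.1 f.2.1 f.2.2 := by
    apply interior_subset
    apply hball
    rw [Metric.mem_ball, Prod.dist_eq]
    simp only [Real.dist_eq, add_sub_cancel_left, sub_self, abs_zero]
    rw [max_lt_iff]
    refine ⟨?_, hε⟩
    rw [abs_of_pos (by linarith)]
    linarith
  have p2 : (x.1, x.2 + ε / 2) ∈ chart D f.1 f.2.1 f.2.2 := by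
    apply interior_subset
    apply hball
    rw [Metric.mem_ball, Prod.dist_eq]
    simp only [Real.dist_eq, add_sub_cancel_left, sub_self, abs_zero]
    rw [max_lt_iff]
    refine ⟨hε, ?_⟩
    rw [abs_of_pos (by linarith)]
    linarith
  have s0 : f.1 + x.1 • f.2.1 + x.2 • f.2.2 ∈ Sec D f := ⟨p0, x, rfl⟩
  have s1 : f.1 + (x.1 + ε / 2) • f.2.1 + x.2 • f.2.2 ∈ Sec D f := ⟨p1, (x.1 + ε / 2, x.2), rfl⟩
  have s2 : f.1 + x.1 • f.2.1 + (x.2 + ε / 2) • f.2.2 ∈ Sec D f := ⟨p2, (x.1, x.2 + ε / 2), rfl⟩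
  constructor
  · intro u b hu hsub z hz hzb
    have e0 : inner ℝ u (f.1 + x.1 • f.2.1 + x.2 • f.2.2) = b := hsub s0
    have e1 : inner ℝ u (f.1 + (x.1 + ε / 2) • f.2.1 + x.2 • f.2.2) = b := hsub s1
    have e2 : inner ℝ u (f.1 + x.1 • f.2.1 + (x.2 + ε / 2) • f.2.2) = b := hsub s2
    simp only [inner_add_right, real_inner_smul_right] at e0 e1 e2
    have hud : inner ℝ u f.2.1 = 0 := by
      have : ε / 2 * inner ℝ u f.2.1 = 0 := by linarith
      rcases mul_eq_zero.1 this with h | h
      · linarith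
      · exact h
    have hue : inner ℝ u f.2.2 = 0 := by
      have : ε / 2 * inner ℝ u f.2.2 = 0 := by linarith
      rcases mul_eq_zero.1 this with h | h
      · linarith
      · exact h
    rw [hud, hue] at e0
    have huf : inner ℝ u f.1 = b := by linarith
    refine ⟨hz, (inner ℝ f.2.1 (z - f.1), inner ℝ f.2.2 (z - f.1)), ?_⟩
    have hr := k17_four (r := z - f.1 - (inner ℝ f.2.1 (z - f.1) : ℝ) • f.2.1 -
      (inner ℝ f.2.2 (z - f.1) : ℝ) • f.2.2) hu hd0 he0 hud hue hde ?_ ?_ ?_
    · have : z = f.1 + (inner ℝ f.2.1 (z - f.1) : ℝ) • f.2.1 + (inner ℝ f.2.2 (z - f.1) : ℝ) • f.2.2 := by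
        have h7 : z = f.1 + (inner ℝ f.2.1 (z - f.1) : ℝ) • f.2.1 + (inner ℝ f.2.2 (z - f.1) : ℝ) • f.2.2 +
          (z - f.1 - (inner ℝ f.2.1 (z - f.1) : ℝ) • f.2.1 - (inner ℝ f.2.2 (z - f.1) : ℝ) • f.2.2) := by
          abel
        rw [hr, add_zero] at h7
        exact h7
      exact this
    · rw [inner_sub_right, inner_sub_right, inner_sub_right, real_inner_smul_right,
        real_inner_smul_right, hud, hue, huf, hzb]
      ring
    · have hed : inner ℝ f.2.2 f.2.1 = (0 : ℝ) := by rw [real_inner_comm]; exact hde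
      rw [inner_sub_right, inner_sub_right, real_inner_smul_right, real_inner_smul_right, hde,
        real_inner_self_eq_norm_sq, hd1]
      ring
    · have hed : inner ℝ f.2.2 f.2.1 = (0 : ℝ) := by rw [real_inner_comm]; exact hde
      rw [inner_sub_right, inner_sub_right, real_inner_smul_right, real_inner_smul_right, hed,
        real_inner_self_eq_norm_sq, he1]
      ring
  · intro p
    by_contra hcon
    push Not at hcon
    have h7 := (hcon _ s0).trans (hcon _ s1).symm
    have h8 : (ε / 2) • f.2.1 = 0 := by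
      have : f.1 + (x.1 + ε / 2) • f.2.1 + x.2 • f.2.2 =
          f.1 + x.1 • f.2.1 + x.2 • f.2.2 + (ε / 2) • f.2.1 := by
        rw [add_smul]; abel
      rw [this] at h7
      exact (left_eq_add.1 h7)
    rcases smul_eq_zero.1 h8 with h | h
    · linarith
    · exact hd0 h

end Q94.CP
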