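import Pool.Agent.Q94.CP.Stm

/-!
# CP-2 (helper251): upper semicontinuity of the section area
-/

set_option autoImplicit false

open MeasureTheory Set Filter Topology

namespace Q94.CP

theorem isClosed_chart {K : Set E} (hK : IsClosed K) (p d e : E) :
    IsClosed (chart K p d e) := by
  have h : Continuous fun x : ℝ × ℝ => p + x.1 • d + x.2 • e := by fun_prop
  exact hK.preimage h

theorem a2 (h : A1d) : A2 := by
  intro D K hD hK c
  obtain ⟨R, hR⟩ := h D K hD hK
  have hsub : {f : Fr | f.1 ∈ D ∧ ON f.2.1 f.2.2 ∧ c ≤ area K f.1 f.2.1 f.2.2} ⊆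
      D ×ˢ (Metric.sphere (0 : E) 1 ×ˢ Metric.sphere (0 : E) 1) := by
    rintro f ⟨h1, ⟨h2, h3, -⟩, -⟩
    exact ⟨h1, mem_sphere_zero_iff_norm.2 h2, mem_sphere_zero_iff_norm.2 h3⟩
  have hcomp : IsCompact (D ×ˢ (Metric.sphere (0 : E) 1 ×ˢ Metric.sphere (0 : E) 1)) :=
    hD.prod ((isCompact_sphere 0 1).prod (isCompact_sphere 0 1))
  refine hcomp.of_isClosed_subset ?_ hsub
  apply IsSeqClosed.isClosed
  intro x f hx hlim
  have l1 : Tendsto (fun n => (x n).1) atTop (𝓝 f.1) := (continuous_fst.tendsto f).comp hlim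
  have l2 : Tendsto (fun n => (x n).2.1) atTop (𝓝 f.2.1) :=
    ((continuous_fst.comp continuous_snd).tendsto f).comp hlim
  have l3 : Tendsto (fun n => (x n).2.2) atTop (𝓝 f.2.2) :=
    ((continuous_snd.comp continuous_snd).tendsto f).comp hlim
  refine ⟨hD.isClosed.mem_of_tendsto l1 (Eventually.of_forall fun n => (hx n).1),
    ⟨?_, ?_, ?_⟩, ?_⟩
  · exact tendsto_nhds_unique l2.norm ((tendsto_congr fun n => (hx n).2.1.1).2 tendsto_const_nhds)
  · exact tendsto_nhds_unique l3.norm
      ((tendsto_congr fun n => (hx n).2.1.2.1).2 tendsto_const_nhds)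
  · exact tendsto_nhds_unique (l2.inner l3)
      ((tendsto_congr fun n => (hx n).2.1.2.2).2 tendsto_const_nhds)
  · set A : ℕ → Set (ℝ × ℝ) := fun n => chart K (x n).1 (x n).2.1 (x n).2.2 with hA
    have hAm : ∀ n, MeasurableSet (A n) := fun n => (isClosed_chart hK.isClosed _ _ _).measurableSet
    set B : ℕ → Set (ℝ × ℝ) := fun n => ⋃ k, A (n + k) with hB
    have hBm : ∀ n, MeasurableSet (B n) := fun n => MeasurableSet.iUnion fun k => hAm _
    have hBanti : Antitone B := by
      intro m n hmn y hy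
      obtain ⟨k, hk⟩ := mem_iUnion.1 hy
      refine mem_iUnion.2 ⟨n - m + k, ?_⟩
      have e : m + (n - m + k) = n + k := by omega
      rw [e]
      exact hk
    have hAR : ∀ n, A n ⊆ Icc (-R, -R) (R, R) := fun n => hR _ (hx n).1 _ _ (hx n).2.1
    have hBR : B 0 ⊆ Icc (-R, -R) (R, R) := iUnion_subset fun k => hAR _
    have hfin : volume (B 0) ≠ ⊤ :=
      ((measure_mono hBR).trans_lt isCompact_Icc.measure_lt_top).ne
    have ht := tendsto_measure_iInter_atTop (μ := (volume : Measure (ℝ × ℝ)))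
      (fun n => (hBm n).nullMeasurableSet) hBanti ⟨0, hfin⟩
    have hc : c ≤ volume (⋂ n, B n) := by
      refine ge_of_tendsto' ht fun n => ?_
      refine (hx n).2.2.trans (measure_mono ?_)
      intro y hy
      exact mem_iUnion.2 ⟨0, hy⟩
    refine hc.trans (measure_mono ?_)
    intro y hy
    have hfr : ∃ᶠ n in atTop, (x n).1 + y.1 • (x n).2.1 + y.2 • (x n).2.2 ∈ K := by
      rw [frequently_atTop]
      intro n
      obtain ⟨k, hk⟩ := mem_iUnion.1 (mem_iInter.1 hy n)
      exact ⟨n + k, by omega, hk⟩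
    have hl : Tendsto (fun n => (x n).1 + y.1 • (x n).2.1 + y.2 • (x n).2.2) atTop
        (𝓝 (f.1 + y.1 • f.2.1 + y.2 • f.2.2)) :=
      (l1.add (l2.const_smul y.1)).add (l3.const_smul y.2)
    exact hK.isClosed.mem_of_frequently_of_tendsto hfr hl

end Q94.CP
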