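import Pool.Agent.Q94.CP.Stm

/-!
# CP-3 (helper251): attainment of the supremum and consequences
-/

set_option autoImplicit false

open MeasureTheory Set Filter Topology

namespace Q94.CP

theorem area_le_sig (K : Set E) (p d e : E) (h : ON d e) : area K p d e ≤ sig K :=
  le_iSup_of_le p (le_iSup_of_le d (le_iSup_of_le e (le_iSup_of_le h le_rfl)))

theorem exists_of_lt_sig {K : Set E} {c : ENNReal} (h : c < sig K) :
    ∃ p d e : E, ON d e ∧ c < area K p d e := by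
  unfold sig at h
  obtain ⟨p, h⟩ := lt_iSup_iff.1 h
  obtain ⟨d, h⟩ := lt_iSup_iff.1 h
  obtain ⟨e, h⟩ := lt_iSup_iff.1 h
  obtain ⟨ho, h⟩ := lt_iSup_iff.1 h
  exact ⟨p, d, e, ho, h⟩

theorem a3 (h1 : A1c) (h2 : A2) : A3 := by
  intro K hK h0
  obtain ⟨u, hu1, hu2, hu3⟩ := exists_seq_strictMono_tendsto' (pos_iff_ne_zero.2 h0)
  have hne : ∀ n, {f : Fr | f.1 ∈ K ∧ ON f.2.1 f.2.2 ∧
      u n ≤ area K f.1 f.2.1 f.2.2}.Nonempty := by
    intro n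
    obtain ⟨p, d, e, ho, h⟩ := exists_of_lt_sig (hu2 n).2
    have hpos : volume (chart K p d e) ≠ 0 := (bot_lt_of_lt h).ne'
    obtain ⟨y, hy⟩ := nonempty_of_measure_ne_zero hpos
    refine ⟨(p + y.1 • d + y.2 • e, d, e), hy, ho, ?_⟩
    change u n ≤ area K (p + y.1 • d + y.2 • e) d e
    rw [h1]
    exact h.le
  have hcomp : ∀ n, IsCompact {f : Fr | f.1 ∈ K ∧ ON f.2.1 f.2.2 ∧
      u n ≤ area K f.1 f.2.1 f.2.2} := fun n => h2 K K hK hK (u n)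
  obtain ⟨f, hf⟩ := IsCompact.nonempty_iInter_of_sequence_nonempty_isCompact_isClosed
    (fun n => {f : Fr | f.1 ∈ K ∧ ON f.2.1 f.2.2 ∧ u n ≤ area K f.1 f.2.1 f.2.2})
    (fun n f hf => ⟨hf.1, hf.2.1, (hu1 (Nat.lt_succ_self n)).le.trans hf.2.2⟩) hne (hcomp 0)
    (fun n => (hcomp n).isClosed)
  rw [mem_iInter] at hf
  refine ⟨f, (hf 0).1, (hf 0).2.1, le_antisymm (area_le_sig K _ _ _ (hf 0).2.1) ?_⟩
  exact le_of_tendsto' hu3 fun n => (hf n).2.2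

theorem a5 (h2 : A2) (h4 : A4) : A5 := by
  intro D hD K hK hKc
  have h := h2 D (D ∩ K) hD.2.1 (hD.2.1.inter_right hK) (sig D)
  have he : {f : Fr | f ∈ Mx D ∧ Sec D f ⊆ K} =
      {f : Fr | f.1 ∈ D ∧ ON f.2.1 f.2.2 ∧ sig D ≤ area (D ∩ K) f.1 f.2.1 f.2.2} := by
    ext f
    constructor
    · rintro ⟨⟨h5, h6, h7⟩, h8⟩
      refine ⟨h5, h6, ?_⟩
      rw [← h7]
      refine measure_mono fun y hy => ⟨hy, h8 ⟨hy, y, rfl⟩⟩
    · rintro ⟨h5, h6, h7⟩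
      exact h4 D hD K hK hKc f h5 h6 h7
  rw [he]
  exact h

theorem a6 (h1b : A1b) (h3 : A3) (h4 : A4) : A6 := by
  intro D hD K hK hKc hKD hno
  by_contra hcon
  have hle : sig D ≤ sig K := not_lt.1 hcon
  have hKcomp : IsCompact K := hD.2.1.of_isClosed_subset hK hKD
  have h0 : sig K ≠ 0 := by
    intro h
    rw [h] at hle
    exact h1b D hD (le_antisymm hle bot_le)
  obtain ⟨f, hf1, hf2, hf3⟩ := h3 K hKcomp h0
  have hDK : D ∩ K = K := inter_eq_right.2 hKD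
  obtain ⟨h5, h6⟩ := h4 D hD K hK hKc f (hKD hf1) hf2 (by rw [hDK, hf3]; exact hle)
  exact hno f h5 h6

theorem a7 (h5 : A5) : A7 := by
  intro D hD K hK hKc hanti hne
  have hcomp : ∀ n, IsCompact {f : Fr | f ∈ Mx D ∧ Sec D f ⊆ K n} :=
    fun n => h5 D hD (K n) (hK n) (hKc n)
  obtain ⟨f, hf⟩ := IsCompact.nonempty_iInter_of_sequence_nonempty_isCompact_isClosed
    (fun n => {f : Fr | f ∈ Mx D ∧ Sec D f ⊆ K n})
    (fun n f hf => ⟨hf.1, hf.2.trans (hanti (Nat.le_succ n))⟩)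
    (fun n => by
      obtain ⟨f, h1, h2⟩ := hne n
      exact ⟨f, h1, h2⟩) (hcomp 0) (fun n => (hcomp n).isClosed)
  rw [mem_iInter] at hf
  exact ⟨f, (hf 0).1, subset_iInter fun n => (hf n).2⟩

theorem a8 (h1b : A1b) (h3 : A3) : A8 := by
  intro D hD
  obtain ⟨f, h1, h2, h4⟩ := h3 D hD.2.1 (h1b D hD)
  exact ⟨f, h1, h2, h4⟩

end Q94.CP
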