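import Pool.Agent.Q94.CP.Stm

/-! # Row MP_fa9df5_co, job CP-4: equality of areas forces containment (helper206) -/

open MeasureTheory Set

namespace Q94.CP

/-- a convex closed planar set of positive measure is the closure of its interior -/
theorem k4_interior {X : Set (ℝ × ℝ)} (hc : Convex ℝ X) (hcl : IsClosed X) (hp : volume X ≠ 0) :
    (interior X).Nonempty ∧ X ⊆ closure (interior X) := by
  have hne : (interior X).Nonempty := by
    by_contra h
    rw [Set.not_nonempty_iff_eq_empty] at h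
    have h1 := hc.addHaar_frontier (volume : Measure (ℝ × ℝ))
    rw [frontier, h, sdiff_empty, hcl.closure_eq] at h1
    exact hp h1
  refine ⟨hne, ?_⟩
  rw [hc.closure_interior_eq_closure_of_nonempty_interior hne]
  exact subset_closure

theorem a4 (h1a : A1a) (h1b : A1b) (h1e : A1e) : A4 := by
  intro D hD K hKc hKv f hf hon hle
  obtain ⟨hDv, hDc, hDi⟩ := hD
  have hDK : IsCompact (D ∩ K) := hDc.inter_right hKc
  have hsub : chart (D ∩ K) f.1 f.2.1 f.2.2 ⊆ chart D f.1 f.2.1 f.2.2 := fun x hx => hx.1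
  have h1 : area (D ∩ K) f.1 f.2.1 f.2.2 ≤ area D f.1 f.2.1 f.2.2 := measure_mono hsub
  have h2 : area D f.1 f.2.1 f.2.2 ≤ sig D :=
    le_iSup_of_le f.1 (le_iSup_of_le f.2.1 (le_iSup_of_le f.2.2 (le_iSup_of_le hon le_rfl)))
  have h3 : area D f.1 f.2.1 f.2.2 = sig D := le_antisymm h2 (hle.trans h1)
  have h4 : area (D ∩ K) f.1 f.2.1 f.2.2 = area D f.1 f.2.1 f.2.2 :=
    le_antisymm h1 (h2.trans hle)
  have hs0 : sig D ≠ 0 := h1b D ⟨hDv, hDc, hDi⟩
  have hst : sig D ≠ ⊤ := h1a D hDc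
  have hXc := h1e.1 D f.1 f.2.1 f.2.2 hDc hon
  have hYc := h1e.1 (D ∩ K) f.1 f.2.1 f.2.2 hDK hon
  have hXv := h1e.2 D f.1 f.2.1 f.2.2 hDv
  have hvX : volume (chart D f.1 f.2.1 f.2.2) = sig D := h3
  have hvY : volume (chart (D ∩ K) f.1 f.2.1 f.2.2) = sig D := h4.trans h3
  obtain ⟨-, hcl⟩ := k4_interior hXv hXc.isClosed (by rw [hvX]; exact hs0)
  have hdiff : volume (chart D f.1 f.2.1 f.2.2 \ chart (D ∩ K) f.1 f.2.1 f.2.2) = 0 := by
    rw [measure_sdiff hsub hYc.isClosed.measurableSet.nullMeasurableSet (by rw [hvY]; exact hst), hvX, hvY]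
    exact tsub_self _
  have hXY : chart D f.1 f.2.1 f.2.2 ⊆ chart (D ∩ K) f.1 f.2.1 f.2.2 := by
    intro z hz
    by_contra hzY
    have h5 : (interior (chart D f.1 f.2.1 f.2.2) ∩ (chart (D ∩ K) f.1 f.2.1 f.2.2)ᶜ).Nonempty := by
      have := mem_closure_iff.1 (hcl hz) _ hYc.isClosed.isOpen_compl hzY
      rwa [inter_comm] at this
    have h6 : IsOpen (interior (chart D f.1 f.2.1 f.2.2) ∩ (chart (D ∩ K) f.1 f.2.1 f.2.2)ᶜ) :=
      isOpen_interior.inter hYc.isClosed.isOpen_compl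
    have h7 := h6.measure_pos volume h5
    have h8 : volume (interior (chart D f.1 f.2.1 f.2.2) ∩ (chart (D ∩ K) f.1 f.2.1 f.2.2)ᶜ) ≤ 0 := by
      rw [← hdiff]
      exact measure_mono fun x hx => ⟨interior_subset hx.1, hx.2⟩
    exact absurd h7 (not_lt.2 h8)
  refine ⟨⟨hf, hon, h3⟩, ?_⟩
  rintro z ⟨hz, x, rfl⟩
  exact (hXY (show x ∈ chart D f.1 f.2.1 f.2.2 from hz)).2

end Q94.CP
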