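import Pool.Agent.Q94.CP.Stm

/-! # Row MP_fa9df5_co, job CP-5: fibre lengths of a convex body (helper206) -/

open MeasureTheory Set

namespace Q94.CP

theorem k5_compact {D : Set E} (hD : IsCompact D) (y : E) {v : E} (hv : v ≠ 0) :
    IsCompact {t : ℝ | y + t • v ∈ D} := by
  have hcont : Continuous fun t : ℝ => y + t • v := by fun_prop
  apply Metric.isCompact_of_isClosed_isBounded
  · exact hD.isClosed.preimage hcont
  · obtain ⟨R, hR⟩ := hD.isBounded.exists_norm_le
    have hv' : 0 < ‖v‖ := norm_pos_iff.2 hv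
    rw [isBounded_iff_forall_norm_le]
    refine ⟨(R + ‖y‖) / ‖v‖, fun t ht => ?_⟩
    rw [le_div_iff₀ hv', ← norm_smul]
    have h1 := hR _ ht
    have h2 : t • v = (y + t • v) - y := by abel
    rw [h2]
    exact (norm_sub_le _ _).trans (by linarith)

theorem b1 : B1 := by
  intro D hD p d v hv
  unfold area
  have hcont : Continuous fun x : ℝ × ℝ => p + x.1 • d + x.2 • v := by fun_prop
  have hm : MeasurableSet (chart D p d v) := (hD.isClosed.preimage hcont).measurableSet
  rw [Measure.volume_eq_prod, Measure.prod_apply hm]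
  apply lintegral_congr
  intro s
  unfold wd
  rw [ENNReal.ofReal_toReal (k5_compact hD _ hv).measure_lt_top.ne]
  rfl

theorem k5_convex {D : Set E} (hD : Convex ℝ D) (y v : E) : Convex ℝ {t : ℝ | y + t • v ∈ D} := by
  intro s hs t ht a b ha hb hab
  show y + (a • s + b • t) • v ∈ D
  have := hD hs ht ha hb hab
  have e : a • (y + s • v) + b • (y + t • v) = y + (a • s + b • t) • v := by
    have h1 : y = a • y + b • y := by rw [← add_smul, hab, one_smul]
    rw [smul_add, smul_add, smul_smul, smul_smul, add_smul, smul_eq_mul, smul_eq_mul]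
    nth_rewrite 3 [h1]
    abel
  rwa [e] at this

/-- compact convex nonempty sets of reals -/
theorem k5_icc {F : Set ℝ} (h1 : F.Nonempty) (h2 : IsCompact F) (h3 : Convex ℝ F) :
    ∃ p q : ℝ, p ≤ q ∧ F = Icc p q := by
  have := eq_Icc_of_connected_compact ⟨h1, h3.isPreconnected⟩ h2
  refine ⟨sInf F, sSup F, ?_, this⟩
  rw [this] at h1
  exact nonempty_Icc.1 h1

theorem b2 : B2 := by
  intro D hDc hDv v hv
  refine ⟨?_, fun x => ENNReal.toReal_nonneg, ?_, ?_, ?_⟩
  · intro x t
    unfold wd
    congr 1
    have h := measure_preimage_add (volume : Measure ℝ) t {s : ℝ | x + s • v ∈ D}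
    rw [← h]
    congr 1
    ext s
    show x + t • v + s • v ∈ D ↔ x + (t + s) • v ∈ D
    rw [add_smul, add_assoc]
  · intro x hx
    unfold wd
    have : {t : ℝ | x + t • v ∈ D} = ∅ := by
      ext t
      simp only [mem_ofPred_eq, mem_empty_iff_false, iff_false]
      exact fun h => hx ⟨t, h⟩
    rw [this]
    simp
  · rintro x ⟨s, hs⟩ y ⟨t, ht⟩ a b ha hb hab
    refine ⟨a * s + b * t, ?_⟩
    have := hDv hs ht ha hb hab
    have e : a • (x + s • v) + b • (y + t • v) = a • x + b • y + (a * s + b * t) • v := by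
      rw [smul_add, smul_add, smul_smul, smul_smul, add_smul]
      abel
    rwa [e] at this
  · rintro x ⟨s, hs⟩ y ⟨t, ht⟩ a b ha hb hab
    obtain ⟨p, q, hpq, hF⟩ := k5_icc ⟨s, hs⟩ (k5_compact hDc x hv) (k5_convex hDv x v)
    obtain ⟨p', q', hpq', hF'⟩ := k5_icc ⟨t, ht⟩ (k5_compact hDc y hv) (k5_convex hDv y v)
    have hcomb : ∀ s t : ℝ, x + s • v ∈ D → y + t • v ∈ D → a • x + b • y + (a * s + b * t) • v ∈ D := by
      intro s t hs ht
      have := hDv hs ht ha hb hab
      have e : a • (x + s • v) + b • (y + t • v) = a • x + b • y + (a * s + b * t) • v := by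
        rw [smul_add, smul_add, smul_smul, smul_smul, add_smul]
        abel
      rwa [e] at this
    have hp : x + p • v ∈ D := by
      have : p ∈ {t : ℝ | x + t • v ∈ D} := by rw [hF]; exact left_mem_Icc.2 hpq
      exact this
    have hq : x + q • v ∈ D := by
      have : q ∈ {t : ℝ | x + t • v ∈ D} := by rw [hF]; exact right_mem_Icc.2 hpq
      exact this
    have hp' : y + p' • v ∈ D := by
      have : p' ∈ {t : ℝ | y + t • v ∈ D} := by rw [hF']; exact left_mem_Icc.2 hpq'
      exact this
    have hq' : y + q' • v ∈ D := by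
      have : q' ∈ {t : ℝ | y + t • v ∈ D} := by rw [hF']; exact right_mem_Icc.2 hpq'
      exact this
    have hsub : Icc (a * p + b * p') (a * q + b * q') ⊆ {t : ℝ | a • x + b • y + t • v ∈ D} :=
      (k5_convex hDv _ v).ordConnected.out (hcomb p p' hp hp') (hcomb q q' hq hq')
    have hle : volume (Icc (a * p + b * p') (a * q + b * q')) ≤
        volume {t : ℝ | a • x + b • y + t • v ∈ D} := measure_mono hsub
    have hfin := (k5_compact hDc (a • x + b • y) hv).measure_lt_top (μ := (volume : Measure ℝ)).ne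
    have h1 : wd D v x = q - p := by
      unfold wd
      rw [hF, Real.volume_Icc, ENNReal.toReal_ofReal (by linarith)]
    have h2 : wd D v y = q' - p' := by
      unfold wd
      rw [hF', Real.volume_Icc, ENNReal.toReal_ofReal (by linarith)]
    rw [h1, h2]
    have h3 : (a * q + b * q') - (a * p + b * p') ≤ wd D v (a • x + b • y) := by
      unfold wd
      have h4 := ENNReal.toReal_mono hfin hle
      rw [Real.volume_Icc, ENNReal.toReal_ofReal (by nlinarith)] at h4
      exact h4
    simp only [smul_eq_mul]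
    linarith

end Q94.CP
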