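import Pool.Agent.Q94.CP.Stm

/-!
# CP-6 (helper251): sections through lines; planar data
-/

set_option autoImplicit false

open MeasureTheory Set Filter Topology

namespace Q94.CP

theorem area_le_sig' (K : Set E) (p d e : E) (h : ON d e) : area K p d e ≤ sig K :=
  le_iSup_of_le p (le_iSup_of_le d (le_iSup_of_le e (le_iSup_of_le h le_rfl)))

theorem lint_scale (F : ℝ → ENNReal) {n : ℝ} (hn : 0 < n) :
    ENNReal.ofReal n * ∫⁻ r : ℝ, F (n * r) = ∫⁻ s : ℝ, F s := by
  have h1 := lintegral_map_equiv (μ := (volume : Measure ℝ)) F (MeasurableEquiv.mulLeft₀ n hn.ne')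
  have h2 : Measure.map (MeasurableEquiv.mulLeft₀ n hn.ne') (volume : Measure ℝ) =
      ENNReal.ofReal |n⁻¹| • volume := Real.map_volume_mul_left hn.ne'
  rw [h2, lintegral_smul_measure] at h1
  have h3 : ∫⁻ r : ℝ, F (n * r) = ENNReal.ofReal |n⁻¹| * ∫⁻ s : ℝ, F s := h1.symm
  rw [h3, ← mul_assoc, ← ENNReal.ofReal_mul hn.le, abs_of_pos (inv_pos.2 hn),
    mul_inv_cancel₀ hn.ne', ENNReal.ofReal_one, one_mul]

theorem b3 (h1 : B1) : B3 := by
  intro D hD v hv p u huv
  by_cases hu : u = 0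
  · rw [hu, norm_zero, ENNReal.ofReal_zero, zero_mul]
    exact bot_le
  · have hn : 0 < ‖u‖ := norm_pos_iff.2 hu
    have hv0 : v ≠ 0 := by
      intro h
      rw [h, norm_zero] at hv
      exact zero_ne_one hv
    have hon : ON (‖u‖⁻¹ • u) v := by
      refine ⟨?_, hv, ?_⟩
      · rw [norm_smul, norm_inv, norm_norm, inv_mul_cancel₀ hn.ne']
      · rw [real_inner_smul_left, huv, mul_zero]
    have h2 := h1 D hD p (‖u‖⁻¹ • u) v hv0
    have h3 := lint_scale (fun s => ENNReal.ofReal (wd D v (p + s • (‖u‖⁻¹ • u)))) hn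
    have h4 : ∀ r : ℝ, (‖u‖ * r) • (‖u‖⁻¹ • u) = r • u := by
      intro r
      rw [smul_smul, mul_comm ‖u‖ r, mul_assoc, mul_inv_cancel₀ hn.ne', mul_one]
    simp only [h4] at h3
    rw [h3, ← h2]
    exact area_le_sig' D p _ v hon

theorem b9 : B9 := by
  intro K p d e
  have h := (Measure.measurePreserving_neg (volume : Measure ℝ)).prod
    (MeasurePreserving.id (volume : Measure ℝ))
  have h2 : MeasurePreserving ((MeasurableEquiv.neg ℝ).prodCongr (MeasurableEquiv.refl ℝ))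
      (volume : Measure (ℝ × ℝ)) volume := h
  have h3 := h2.measure_preimage_equiv (chart K p d e)
  unfold area
  rw [← h3]
  congr 1
  ext x
  change p + x.1 • (-d) + x.2 • e ∈ K ↔ p + (-x.1) • d + x.2 • e ∈ K
  rw [smul_neg, neg_smul]

/-- the linear map of three vectors -/
noncomputable def L3 (a b v : E) : ℝ × ℝ × ℝ →ₗ[ℝ] E :=
  (LinearMap.fst ℝ ℝ (ℝ × ℝ)).smulRight a +
    (((LinearMap.fst ℝ ℝ ℝ).comp (LinearMap.snd ℝ ℝ (ℝ × ℝ))).smulRight b +
      ((LinearMap.snd ℝ ℝ ℝ).comp (LinearMap.snd ℝ ℝ (ℝ × ℝ))).smulRight v)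

theorem L3_apply (a b v : E) (z : ℝ × ℝ × ℝ) :
    L3 a b v z = z.1 • a + (z.2.1 • b + z.2.2 • v) := rfl

theorem L3_ker {a b v : E} (hv : ‖v‖ = 1) (hav : inner ℝ a v = 0) (hbv : inner ℝ b v = 0)
    (hab : (inner ℝ a b) ^ 2 < ‖a‖ ^ 2 * ‖b‖ ^ 2) : LinearMap.ker (L3 a b v) = ⊥ := by
  rw [LinearMap.ker_eq_bot']
  rintro ⟨x, y, t⟩ h
  rw [L3_apply] at h
  simp only at h
  have hva : inner ℝ v a = 0 := by rw [real_inner_comm]; exact hav
  have hvb : inner ℝ v b = 0 := by rw [real_inner_comm]; exact hbv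
  have hba : inner ℝ b a = inner ℝ a b := real_inner_comm a b
  have e1 := congrArg (fun w => inner ℝ w v) h
  have e2 := congrArg (fun w => inner ℝ w a) h
  have e3 := congrArg (fun w => inner ℝ w b) h
  simp only [inner_add_left, real_inner_smul_left, inner_zero_left, real_inner_self_eq_norm_sq,
    hav, hbv, hva, hvb, hba, hv] at e1 e2 e3
  have ht : t = 0 := by linarith
  have hx : x * (‖a‖ ^ 2 * ‖b‖ ^ 2 - (inner ℝ a b) ^ 2) = 0 := by
    linear_combination ‖b‖ ^ 2 * e2 - (inner ℝ a b) * e3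
  have hy : y * (‖a‖ ^ 2 * ‖b‖ ^ 2 - (inner ℝ a b) ^ 2) = 0 := by
    linear_combination ‖a‖ ^ 2 * e3 - (inner ℝ a b) * e2
  have hne : ‖a‖ ^ 2 * ‖b‖ ^ 2 - (inner ℝ a b) ^ 2 ≠ 0 := by
    have := sub_pos.2 hab
    exact this.ne'
  have hx0 := (mul_eq_zero.1 hx).resolve_right hne
  have hy0 := (mul_eq_zero.1 hy).resolve_right hne
  rw [hx0, hy0, ht]
  rfl

theorem b4 (h2 : B2) : B4 := by
  intro D hD hDc v a b p hv hav hbv hab
  have hv0 : v ≠ 0 := by
    intro h
    rw [h, norm_zero] at hv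
    exact zero_ne_one hv
  obtain ⟨-, hn, hz, hc⟩ := h2 D hD hDc v hv0
  refine ⟨fun x y => hn _, fun x y hxy => hz _ hxy, ?_, ?_⟩
  · have hemb := (LinearMap.isClosedEmbedding_of_injective (f := L3 a b v) (L3_ker hv hav hbv hab))
    have hemb2 : IsClosedEmbedding fun z : ℝ × ℝ × ℝ => p + L3 a b v z :=
      (Homeomorph.addLeft p).isClosedEmbedding.comp hemb
    have hcomp := hemb2.isCompact_preimage hD
    have himg := hcomp.image (f := fun z : ℝ × ℝ × ℝ => (z.1, z.2.1)) (by fun_prop)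
    convert himg using 1
    ext z
    constructor
    · rintro ⟨t, ht⟩
      refine ⟨(z.1, z.2, t), ?_, rfl⟩
      change p + L3 a b v (z.1, z.2, t) ∈ D
      rw [L3_apply]
      change p + (z.1 • a + (z.2 • b + t • v)) ∈ D
      rw [← add_assoc, ← add_assoc]
      exact ht
    · rintro ⟨⟨x, y, t⟩, h, rfl⟩
      refine ⟨t, ?_⟩
      have h' : p + (x • a + (y • b + t • v)) ∈ D := h
      rw [← add_assoc, ← add_assoc] at h'
      exact h'
  · have key : ∀ (z w : ℝ × ℝ) (α β : ℝ), α + β = 1 →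
        p + (α • z + β • w).1 • a + (α • z + β • w).2 • b =
        α • (p + z.1 • a + z.2 • b) + β • (p + w.1 • a + w.2 • b) := by
      intro z w α β h
      have hp : p = α • p + β • p := by rw [← add_smul, h, one_smul]
      simp only [Prod.fst_add, Prod.snd_add, Prod.smul_fst, Prod.smul_snd, smul_eq_mul, add_smul,
        smul_add, mul_smul]
      conv_lhs => rw [hp]
      abel
    refine ⟨?_, ?_⟩
    · intro z hz' w hw α β hα hβ h
      change p + (α • z + β • w).1 • a + (α • z + β • w).2 • b ∈ Pj D v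
      rw [key z w α β h]
      exact hc.1 hz' hw hα hβ h
    · intro z hz' w hw α β hα hβ h
      have h3 := hc.2 hz' hw hα hβ h
      rw [← key z w α β h] at h3
      exact h3

end Q94.CP
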