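import Pool.Agent.Q94.CP.Stm

/-! # Row MP_fa9df5_co, job CP-7: change of frame in a plane, common direction of two planes (helper206) -/

open MeasureTheory Set

namespace Q94.CP

theorem k7_inner {d e : E} (h : ON d e) (x y x' y' : ℝ) :
    inner ℝ (x • d + y • e) (x' • d + y' • e) = x * x' + y * y' := by
  obtain ⟨hd, he, hde⟩ := h
  have hed : inner ℝ e d = (0 : ℝ) := by rw [real_inner_comm]; exact hde
  simp only [inner_add_left, inner_add_right, real_inner_smul_left, real_inner_smul_right, hde, hed,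
    real_inner_self_eq_norm_sq, hd, he]
  ring

/-- two coordinates of an orthonormal pair -/
theorem k7_norm {d e : E} (h : ON d e) (x y : ℝ) : ‖x • d + y • e‖ ^ 2 = x ^ 2 + y ^ 2 := by
  rw [← real_inner_self_eq_norm_sq, k7_inner h]
  ring

/-- a rotation preserves area -/
theorem k7_vol (a b : ℝ) (h : a ^ 2 + b ^ 2 = 1) (X : Set (ℝ × ℝ)) :
    volume {x : ℝ × ℝ | (a * x.1 + b * x.2, -b * x.1 + a * x.2) ∈ X} = volume X := by
  let L : (ℝ × ℝ) →ₗ[ℝ] (ℝ × ℝ) :=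
    Matrix.toLin (Module.Basis.finTwoProd ℝ) (Module.Basis.finTwoProd ℝ) !![a, b; -b, a]
  have hdet : LinearMap.det L = 1 := by
    rw [LinearMap.det_toLin, Matrix.det_fin_two_of]
    linarith
  have h1 := Measure.addHaar_preimage_linearMap (volume : Measure (ℝ × ℝ)) (f := L)
    (by rw [hdet]; exact one_ne_zero) X
  rw [hdet] at h1
  simp only [inv_one, abs_one, ENNReal.ofReal_one, one_mul] at h1
  rw [← h1]
  congr 1
  ext x
  show _ ↔ L x ∈ X
  rw [Matrix.toLin_finTwoProd_apply]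
  rfl

theorem b7 : B7 := by
  intro d e v v1 v2 hon hv hv1
  have hsq : v1 ^ 2 + v2 ^ 2 = 1 := by
    rw [← k7_norm hon, ← hv, hv1]; norm_num
  refine ⟨v2 • d + (-v1) • e, ⟨?_, hv1, ?_⟩, ?_, ?_⟩
  · have h1 := k7_norm hon v2 (-v1)
    have h2 : ‖v2 • d + (-v1) • e‖ ^ 2 = 1 := by rw [h1]; linarith
    have h3 := norm_nonneg (v2 • d + (-v1) • e)
    nlinarith
  · rw [hv, k7_inner hon]; ring
  · intro K p
    unfold area
    rw [← k7_vol v2 v1 (by linarith) (chart K p d e)]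
    congr 1
    ext x
    show p + x.1 • (v2 • d + (-v1) • e) + x.2 • v ∈ K ↔
      p + (v2 * x.1 + v1 * x.2) • d + (-v1 * x.1 + v2 * x.2) • e ∈ K
    have : p + x.1 • (v2 • d + (-v1) • e) + x.2 • v =
      p + (v2 * x.1 + v1 * x.2) • d + (-v1 * x.1 + v2 * x.2) • e := by
      rw [hv]
      module
    rw [this]
  · intro p z
    constructor
    · rintro ⟨x, hx⟩
      refine ⟨(v2 * x.1 - v1 * x.2, v1 * x.1 + v2 * x.2), ?_⟩
      rw [hx, hv]
      have e1 : x.1 • d = ((v1 ^ 2 + v2 ^ 2) * x.1) • d := by rw [hsq, one_mul]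
      have e2 : x.2 • e = ((v1 ^ 2 + v2 ^ 2) * x.2) • e := by rw [hsq, one_mul]
      rw [e1, e2]
      module
    · rintro ⟨x, hx⟩
      refine ⟨(v2 * x.1 + v1 * x.2, -v1 * x.1 + v2 * x.2), ?_⟩
      rw [hx, hv]
      module

theorem b8 : B8 := by
  intro d e d' e' h h'
  let f : (Fin 4 → ℝ) →ₗ[ℝ] E := Fintype.linearCombination ℝ ![d, e, d', e']
  have hlt : Module.finrank ℝ E < Module.finrank ℝ (Fin 4 → ℝ) := by simp
  obtain ⟨c, hc, hc0⟩ := Submodule.exists_mem_ne_zero_of_ne_bot (LinearMap.ker_ne_bot_of_finrank_lt (f := f) hlt)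
  rw [LinearMap.mem_ker] at hc
  have hc' : c 0 • d + c 1 • e + c 2 • d' + c 3 • e' = 0 := by
    have : f c = c 0 • d + c 1 • e + c 2 • d' + c 3 • e' := by
      simp [f, Fintype.linearCombination_apply, Fin.sum_univ_four]
    rw [← this]; exact hc
  set w := c 0 • d + c 1 • e with hw
  have hw' : w = (-c 2) • d' + (-c 3) • e' := by
    have h1 : w + (c 2 • d' + c 3 • e') = 0 := by rw [← add_assoc]; exact hc'
    rw [eq_neg_of_add_eq_zero_left h1]
    module
  have hw0 : w ≠ 0 := by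
    intro h0
    apply hc0
    have n1 := k7_norm h (c 0) (c 1)
    have n2 := k7_norm h' (-c 2) (-c 3)
    rw [← hw, h0, norm_zero] at n1
    rw [← hw', h0, norm_zero] at n2
    have z0 : c 0 = 0 := by nlinarith [sq_nonneg (c 0), sq_nonneg (c 1)]
    have z1 : c 1 = 0 := by nlinarith [sq_nonneg (c 0), sq_nonneg (c 1)]
    have z2 : c 2 = 0 := by nlinarith [sq_nonneg (c 2), sq_nonneg (c 3)]
    have z3 : c 3 = 0 := by nlinarith [sq_nonneg (c 2), sq_nonneg (c 3)]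
    funext i
    fin_cases i
    · exact z0
    · exact z1
    · exact z2
    · exact z3
  have hn : ‖w‖ ≠ 0 := norm_ne_zero_iff.2 hw0
  refine ⟨‖w‖⁻¹ • w, ‖w‖⁻¹ * c 0, ‖w‖⁻¹ * c 1, ‖w‖⁻¹ * (-c 2), ‖w‖⁻¹ * (-c 3), ?_, ?_, ?_⟩
  · rw [norm_smul, norm_inv, norm_norm, inv_mul_cancel₀ hn]
  · rw [hw]; module
  · have h1 : ‖w‖⁻¹ • w = ‖w‖⁻¹ • ((-c 2) • d' + (-c 3) • e') := congrArg (fun t => ‖w‖⁻¹ • t) hw'
    rw [h1]
    module

theorem d2 : D2 := by
  intro D hD f hon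
  obtain ⟨hDv, hDc, -⟩ := hD
  have hS : Sec D f = D ∩ {z | z = f.1 + (inner ℝ f.2.1 (z - f.1) : ℝ) • f.2.1 +
      (inner ℝ f.2.2 (z - f.1) : ℝ) • f.2.2} := by
    ext z
    constructor
    · rintro ⟨hz, x, hx⟩
      refine ⟨hz, ?_⟩
      show z = _
      have e0 : z - f.1 = x.1 • f.2.1 + x.2 • f.2.2 := by rw [hx]; abel
      have e1 : inner ℝ f.2.1 (z - f.1) = x.1 := by
        have := k7_inner hon 1 0 x.1 x.2
        rw [one_smul, zero_smul, add_zero] at this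
        rw [e0, this]; ring
      have e2 : inner ℝ f.2.2 (z - f.1) = x.2 := by
        have := k7_inner hon 0 1 x.1 x.2
        rw [one_smul, zero_smul, zero_add] at this
        rw [e0, this]; ring
      rw [e1, e2]; exact hx
    · rintro ⟨hz, hx⟩
      exact ⟨hz, (inner ℝ f.2.1 (z - f.1), inner ℝ f.2.2 (z - f.1)), hx⟩
  refine ⟨?_, ?_⟩
  · rw [hS]
    refine hDc.isClosed.inter (isClosed_eq continuous_id ?_)
    fun_prop
  · rintro z ⟨hz, x, hx⟩ z' ⟨hz', x', hx'⟩ a b ha hb hab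
    refine ⟨hDv hz hz' ha hb hab, (a * x.1 + b * x'.1, a * x.2 + b * x'.2), ?_⟩
    rw [hx, hx']
    have h1 : f.1 = a • f.1 + b • f.1 := by rw [← add_smul, hab, one_smul]
    show _ = f.1 + (a * x.1 + b * x'.1) • f.2.1 + (a * x.2 + b * x'.2) • f.2.2
    conv_rhs => rw [h1]
    module

end Q94.CP
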