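import Pool.Agent.Q94.CP.Stm

/-! Job CP-8 (helper239): concave functions on an interval. -/

set_option autoImplicit false

open MeasureTheory Set

namespace Q94.CP

theorem x1 : X1 := by
  intro W I σ hσ hI hW h0 hoff hint
  have hpos : ¬ ∀ s, W s = 0 := by
    intro h
    simp only [h, ENNReal.ofReal_zero, lintegral_zero] at hint
    exact (ENNReal.ofReal_pos.2 hσ).ne hint
  have hne : I.Nonempty := by
    rw [Set.nonempty_iff_ne_empty]
    rintro rfl
    exact hpos fun s => hoff s (Set.notMem_empty s)
  have hconv : Convex ℝ I := hW.1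
  have hIcc : I = Icc (sInf I) (sSup I) :=
    eq_Icc_of_connected_compact ⟨hne, hconv.isPreconnected⟩ hI
  generalize sInf I = A at hIcc
  generalize sSup I = B at hIcc
  have hIoo : (∫⁻ s in Ioo A B, ENNReal.ofReal (W s)) = ENNReal.ofReal σ := by
    rw [setLIntegral_congr Ioo_ae_eq_Icc, ← hint, ← lintegral_indicator measurableSet_Icc]
    congr 1
    funext s
    by_cases hs : s ∈ Icc A B
    · rw [indicator_of_mem hs]
    · rw [indicator_of_notMem hs, hoff s (by rw [hIcc]; exact hs), ENNReal.ofReal_zero]
  have hAB : A < B := by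
    by_contra h
    rw [Ioo_eq_empty h] at hIoo
    simp only [Measure.restrict_empty, lintegral_zero_measure] at hIoo
    exact (ENNReal.ofReal_pos.2 hσ).ne hIoo
  refine ⟨A, B, hAB, hIcc, ?_, ?_, hIoo⟩
  · have h := hW.continuousOn_interior
    rwa [hIcc, interior_Icc] at h
  · intro s0 hs0
    rcases (h0 s0).lt_or_eq with h | h
    · exact h
    · exfalso
      apply hpos
      intro s
      by_cases hs : s ∈ I
      swap
      · exact hoff s hs
      have hA : A ∈ I := by rw [hIcc]; exact ⟨le_rfl, hAB.le⟩
      have hB : B ∈ I := by rw [hIcc]; exact ⟨hAB.le, le_rfl⟩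
      have key : ∀ e ∈ I, ∀ t : ℝ, 0 < t → t ≤ 1 → t * s + (1 - t) * e = s0 → W s = 0 := by
        intro e he t ht ht1 hte
        have h1 := hW.2 hs he ht.le (sub_nonneg.2 ht1) (by ring)
        simp only [smul_eq_mul] at h1
        rw [hte, ← h] at h1
        have h2 := mul_nonneg (sub_nonneg.2 ht1) (h0 e)
        have h3 : t * W s ≤ 0 := by linarith
        have h4 := h0 s
        have h5 : 0 ≤ t * W s := mul_nonneg ht.le h4
        have h6 : t * W s = 0 := le_antisymm h3 h5
        rcases mul_eq_zero.1 h6 with h7 | h7
        · exact absurd h7 ht.ne'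
        · exact h7
      rcases lt_trichotomy s s0 with hlt | heq | hgt
      · have hsB : 0 < B - s := by linarith [hs0.2]
        refine key B hB ((B - s0) / (B - s)) (div_pos (by linarith [hs0.2]) hsB) ?_ ?_
        · rw [div_le_one hsB]; linarith
        · field_simp
          ring
      · rw [heq]; exact h.symm
      · have hsA : 0 < s - A := by linarith [hs0.1]
        refine key A hA ((s0 - A) / (s - A)) (div_pos (by linarith [hs0.1]) hsA) ?_ ?_
        · rw [div_le_one hsA]; linarith
        · field_simp
          ring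

end Q94.CP
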