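import Pool.Agent.Q94.CP.Stm

/-!
CP-9: the transport map (helper121).
-/

set_option autoImplicit false

open MeasureTheory Set Filter Topology

namespace Q94.CP

namespace K9

theorem prim (W : ℝ → ℝ) (A B σ : ℝ) (hσ : 0 < σ) (hAB : A < B) (hW : ContinuousOn W (Ioo A B))
    (hp : ∀ s ∈ Ioo A B, 0 < W s)
    (hI : (∫⁻ s in Ioo A B, ENNReal.ofReal (W s)) = ENNReal.ofReal σ) :
    ∃ F : ℝ → ℝ, (∀ s ∈ Ioo A B, HasDerivAt F (W s) s ∧ F s ∈ Ioo 0 σ) ∧
      StrictMonoOn F (Ioo A B) ∧ ∀ r ∈ Ioo 0 σ, ∃ s ∈ Ioo A B, F s = r := by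
  have hnn : 0 ≤ᵐ[volume.restrict (Ioo A B)] W := by
    filter_upwards [ae_restrict_mem measurableSet_Ioo] with s hs
    exact (hp s hs).le
  have hInt : IntegrableOn W (Ioo A B) := by
    refine ⟨hW.aestronglyMeasurable measurableSet_Ioo, ?_⟩
    rw [hasFiniteIntegral_iff_ofReal hnn, hI]
    exact ENNReal.ofReal_lt_top
  have hInt2 : IntegrableOn W (Icc A B) := by
    rw [integrableOn_Icc_iff_integrableOn_Ioo]
    exact hInt
  have hII : IntervalIntegrable W volume A B := by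
    rw [intervalIntegrable_iff_integrableOn_Ioc_of_le hAB.le]
    exact hInt2.mono_set Ioc_subset_Icc_self
  have hval : ∫ x in A..B, W x = σ := by
    rw [intervalIntegral.integral_of_le hAB.le, integral_Ioc_eq_integral_Ioo]
    have h1 := ofReal_integral_eq_lintegral_ofReal hInt hnn
    rw [hI] at h1
    have h2 : 0 ≤ ∫ x in Ioo A B, W x := integral_nonneg_of_ae hnn
    exact (ENNReal.ofReal_eq_ofReal_iff h2 hσ.le).1 h1
  set F : ℝ → ℝ := fun s => ∫ x in A..s, W x with hF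
  have hFA : F A = 0 := by
    rw [hF]
    simp
  have hFB : F B = σ := hval
  have hder : ∀ s ∈ Ioo A B, HasDerivAt F (W s) s := by
    intro s hs
    apply intervalIntegral.integral_hasDerivAt_right
    · exact hII.mono_set (by
        rw [uIcc_of_le hs.1.le, uIcc_of_le hAB.le]
        exact Icc_subset_Icc_right hs.2.le)
    · exact hW.stronglyMeasurableAtFilter isOpen_Ioo s hs
    · exact hW.continuousAt (Ioo_mem_nhds hs.1 hs.2)
  have hcont : ContinuousOn F (Icc A B) := by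
    have := intervalIntegral.continuousOn_primitive_interval (f := W) (a := A) (b := B)
      (μ := volume) (by rw [uIcc_of_le hAB.le]; exact hInt2)
    rwa [uIcc_of_le hAB.le] at this
  have hmono : StrictMonoOn F (Icc A B) := by
    apply strictMonoOn_of_deriv_pos (convex_Icc A B) hcont
    intro s hs
    rw [interior_Icc] at hs
    rw [(hder s hs).deriv]
    exact hp s hs
  have hmA : A ∈ Icc A B := ⟨le_rfl, hAB.le⟩
  have hmB : B ∈ Icc A B := ⟨hAB.le, le_rfl⟩
  refine ⟨F, ?_, hmono.mono Ioo_subset_Icc_self, ?_⟩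
  · intro s hs
    refine ⟨hder s hs, ?_, ?_⟩
    · rw [← hFA]
      exact hmono hmA (Ioo_subset_Icc_self hs) hs.1
    · rw [← hFB]
      exact hmono (Ioo_subset_Icc_self hs) hmB hs.2
  · intro r hr
    have h1 := intermediate_value_Icc hAB.le hcont
    rw [hFA, hFB] at h1
    obtain ⟨s, hs, hsr⟩ := h1 (Ioo_subset_Icc_self hr)
    refine ⟨s, ⟨lt_of_le_of_ne hs.1 ?_, lt_of_le_of_ne hs.2 ?_⟩, hsr⟩
    · rintro rfl
      rw [hFA] at hsr
      exact hr.1.ne hsr
    · rintro rfl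
      rw [hFB] at hsr
      exact hr.2.ne hsr.symm

end K9

/-- CP-9 -/
theorem x2 : X2 := by
  intro W1 W2 A1 B1 A2 B2 σ hσ hAB1 hAB2 hc1 hc2 hp1 hp2 hI1 hI2
  obtain ⟨F1, hF1, hm1, hs1⟩ := K9.prim W1 A1 B1 σ hσ hAB1 hc1 hp1 hI1
  obtain ⟨F2, hF2, hm2, hs2⟩ := K9.prim W2 A2 B2 σ hσ hAB2 hc2 hp2 hI2
  choose! g hg1 hg2 using hs2
  have hgm : StrictMonoOn g (Ioo 0 σ) := by
    intro r hr r' hr' hrr
    by_contra h
    rw [not_lt] at h
    have h1 := hm2.monotoneOn (hg1 r' hr') (hg1 r hr) h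
    rw [hg2 r hr, hg2 r' hr'] at h1
    linarith
  have hgF : ∀ t ∈ Ioo A2 B2, g (F2 t) = t := by
    intro t ht
    have h1 := (hF2 t ht).2
    exact hm2.injOn (hg1 _ h1) ht (hg2 _ h1)
  have hgc : ∀ r ∈ Ioo 0 σ, ContinuousAt g r := by
    intro r hr
    rw [Metric.continuousAt_iff]
    intro ε hε
    set t := g r with ht
    have htI : t ∈ Ioo A2 B2 := hg1 r hr
    obtain ⟨a, ha1, ha2⟩ := exists_between (max_lt htI.1 (show t - ε < t by linarith))
    obtain ⟨b, hb1, hb2⟩ := exists_between (lt_min htI.2 (show t < t + ε by linarith))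
    have haI : a ∈ Ioo A2 B2 := ⟨(le_max_left _ _).trans_lt ha1, ha2.trans htI.2⟩
    have hbI : b ∈ Ioo A2 B2 := ⟨htI.1.trans hb1, hb2.trans_le (min_le_left _ _)⟩
    have haε : t - ε < a := (le_max_right _ _).trans_lt ha1
    have hbε : b < t + ε := hb2.trans_le (min_le_right _ _)
    have hFa : F2 a < r := by
      rw [← hg2 r hr]
      exact hm2 haI htI ha2
    have hFb : r < F2 b := by
      rw [← hg2 r hr]
      exact hm2 htI hbI hb1
    have hFaI := (hF2 a haI).2
    have hFbI := (hF2 b hbI).2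
    refine ⟨min (r - F2 a) (F2 b - r), lt_min (by linarith) (by linarith), ?_⟩
    intro x hx
    rw [Real.dist_eq, abs_lt] at hx
    have k1 := min_le_left (r - F2 a) (F2 b - r)
    have k2 := min_le_right (r - F2 a) (F2 b - r)
    have hx1 : F2 a < x := by linarith [hx.1]
    have hx2 : x < F2 b := by linarith [hx.2]
    have hxI : x ∈ Ioo 0 σ := ⟨hFaI.1.trans hx1, hx2.trans hFbI.2⟩
    have g1 : a < g x := by
      rw [← hgF a haI]
      exact hgm hFaI hxI hx1
    have g2 : g x < b := by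
      rw [← hgF b hbI]
      exact hgm hxI hFbI hx2
    rw [Real.dist_eq, abs_lt]
    constructor <;> linarith
  refine ⟨fun s => g (F1 s), ?_, ?_, ?_⟩
  · intro s hs
    obtain ⟨d1, d2⟩ := hF1 s hs
    refine ⟨hg1 _ d2, ?_⟩
    have e1 : HasDerivAt g (W2 (g (F1 s)))⁻¹ (F1 s) := by
      apply HasDerivAt.of_local_left_inverse (hgc _ d2) (hF2 _ (hg1 _ d2)).1
        (hp2 _ (hg1 _ d2)).ne'
      filter_upwards [Ioo_mem_nhds d2.1 d2.2] with y hy
      exact hg2 y hy
    have e2 := e1.comp s d1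
    have e3 : W1 s / W2 (g (F1 s)) = (W2 (g (F1 s)))⁻¹ * W1 s := by
      rw [div_eq_mul_inv, mul_comm]
    show HasDerivAt (fun s => g (F1 s)) (W1 s / W2 (g (F1 s))) s
    rw [e3]
    exact e2
  · intro s hs s' hs' hss
    exact hgm (hF1 s hs).2 (hF1 s' hs').2 (hm1 hs hs' hss)
  · ext t
    constructor
    · rintro ⟨s, hs, rfl⟩
      exact hg1 _ (hF1 s hs).2
    · intro ht
      obtain ⟨s, hs, hst⟩ := hs1 _ (hF2 t ht).2
      refine ⟨s, hs, ?_⟩
      show g (F1 s) = t
      rw [hst]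
      exact hgF t ht

end Q94.CP
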