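import Pool.Agent.Q94.CP.Stm

open MeasureTheory Set Filter

namespace Q94.CP

lemma span3 {a b v : E} (ha : ‖a‖ = 1) (hb : ‖b‖ = 1) (hv : ‖v‖ = 1) (hav : inner ℝ a v = 0)
    (hbv : inner ℝ b v = 0) (hab : (inner ℝ a b) ^ 2 < 1) (w : E) :
    ∃ x y z : ℝ, w = x • a + y • b + z • v := by
  have hli : LinearIndependent ℝ ![a, b, v] := by
    rw [Fintype.linearIndependent_iff]
    intro g hg
    simp only [Fin.sum_univ_three, Matrix.cons_val_zero, Matrix.cons_val_one,
      Matrix.cons_val_two, Matrix.head_cons, Matrix.tail_cons] at hg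
    have hva : inner ℝ v a = 0 := by rw [real_inner_comm]; exact hav
    have hvb : inner ℝ v b = 0 := by rw [real_inner_comm]; exact hbv
    have hba : inner ℝ b a = inner ℝ a b := real_inner_comm _ _
    have haa : inner ℝ a a = 1 := by rw [real_inner_self_eq_norm_sq, ha]; norm_num
    have hbb : inner ℝ b b = 1 := by rw [real_inner_self_eq_norm_sq, hb]; norm_num
    have hvv : inner ℝ v v = 1 := by rw [real_inner_self_eq_norm_sq, hv]; norm_num
    have e1 := congrArg (fun z => inner ℝ v z) hg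
    have e2 := congrArg (fun z => inner ℝ a z) hg
    have e3 := congrArg (fun z => inner ℝ b z) hg
    simp only [inner_add_right, inner_smul_right, inner_zero_right, hva, hvb, hvv, haa, hbb,
      hav, hbv, hba] at e1 e2 e3
    have g2 : g 2 = 0 := by linarith
    have g1 : g 1 = 0 := by
      have : g 1 * (1 - (inner ℝ a b) ^ 2) = 0 := by
        have h1 : g 0 = - (g 1 * inner ℝ a b) := by linarith
        rw [h1] at e3
        nlinarith
      rcases mul_eq_zero.1 this with h | h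
      · exact h
      · exfalso; linarith
    have g0 : g 0 = 0 := by rw [g1] at e2; linarith
    intro i
    fin_cases i
    · exact g0
    · exact g1
    · exact g2
  have hspan : Submodule.span ℝ (Set.range ![a, b, v]) = ⊤ := by
    apply hli.span_eq_top_of_card_eq_finrank'
    simp
  have hw : w ∈ Submodule.span ℝ (Set.range ![a, b, v]) := by rw [hspan]; trivial
  rw [Submodule.mem_span_range_iff_exists_fun] at hw
  obtain ⟨c, hc⟩ := hw
  refine ⟨c 0, c 1, c 2, ?_⟩
  rw [← hc]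
  simp [Fin.sum_univ_three]

/-- Choice of the sign of a direction. -/
lemma sign_choice (h2 : B2) {D : Set E} (hD : Body D) {O a v : E} (hv : v ≠ 0)
    (h0 : O ∉ Pj D v) : ∃ a' : E, (a' = a ∨ a' = -a) ∧ ∀ s : ℝ, O + s • a' ∈ Pj D v → 0 < s := by
  have hcv : Convex ℝ (Pj D v) := ((h2 D hD.2.1 hD.1 v hv).2.2.2).1
  by_cases h : ∃ s : ℝ, 0 < s ∧ O + s • a ∈ Pj D v
  · refine ⟨a, Or.inl rfl, fun t ht => ?_⟩
    obtain ⟨s, hs, hsP⟩ := h
    by_contra hneg
    push Not at hneg
    apply h0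
    have hst : 0 < s - t := by linarith
    have hc := hcv hsP ht (a := -t / (s - t)) (b := s / (s - t)) (by
      apply div_nonneg <;> linarith) (by positivity) (by field_simp; ring)
    have : (-t / (s - t)) • (O + s • a) + (s / (s - t)) • (O + t • a) = O := by
      rw [smul_add, smul_add, smul_smul, smul_smul]
      have e1 : (-t / (s - t)) • O + (-t / (s - t) * s) • a + ((s / (s - t)) • O +
          (s / (s - t) * t) • a) = (-t / (s - t) + s / (s - t)) • O +
          (-t / (s - t) * s + s / (s - t) * t) • a := by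
        rw [add_smul, add_smul]; abel
      rw [e1]
      have e2 : -t / (s - t) + s / (s - t) = 1 := by field_simp; ring
      have e3 : -t / (s - t) * s + s / (s - t) * t = 0 := by field_simp; ring
      rw [e2, e3, one_smul, zero_smul, add_zero]
    rwa [this] at hc
  · refine ⟨-a, Or.inr rfl, fun t ht => ?_⟩
    push Not at h
    by_contra hneg
    push Not at hneg
    rcases hneg.lt_or_eq with hlt | heq
    · apply h (-t) (by linarith)
      rwa [smul_neg, ← neg_smul] at ht
    · apply h0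
      rw [heq, zero_smul, add_zero] at ht
      exact ht

lemma meyer_cross (h1c : A1c) (b1 : B1) (b2 : B2) (b3 : B3) (b4 : B4) (b9 : B9) (xc : XC)
    {D : Set E} (hD : Body D) {σ : ℝ} (hσ : 0 < σ) (hsig : sig D = ENNReal.ofReal σ)
    {p q a1 a2 v : E} (ha1 : ON a1 v) (ha2 : ON a2 v) (hc : (inner ℝ a1 a2) ^ 2 < 1)
    (hp : area D p a1 v = sig D) (hq : area D q a2 v = sig D)
    (hemp : ∀ x y : ℝ × ℝ, p + x.1 • a1 + x.2 • v ∈ D →
      p + x.1 • a1 + x.2 • v = q + y.1 • a2 + y.2 • v → False) : False := by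
  have hv1 : ‖v‖ = 1 := ha1.2.1
  have hv0 : v ≠ 0 := by intro h; rw [h, norm_zero] at hv1; norm_num at hv1
  obtain ⟨x, y, z, hw⟩ := span3 ha1.1 ha2.1 hv1 ha1.2.2 ha2.2.2 hc (q - p)
  set O : E := q + (-y) • a2 with hO
  have hO' : O = p + x • a1 + z • v := by
    have : q = p + (x • a1 + y • a2 + z • v) := by rw [← hw]; abel
    rw [hO, this, neg_smul]; abel
  have h0 : O ∉ Pj D v := by
    rintro ⟨t, ht⟩
    have e1 : O + t • v = p + x • a1 + (z + t) • v := by rw [hO', add_smul]; abel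
    exact hemp (x, z + t) (-y, t) (by simpa using e1 ▸ ht) (by
      show p + x • a1 + (z + t) • v = q + (-y) • a2 + t • v
      rw [← e1])
  have hA1 : area D O a1 v = sig D := by rw [hO', h1c]; exact hp
  have hA2 : area D O a2 v = sig D := by
    have := h1c D q a2 v (-y) 0
    rw [zero_smul, add_zero] at this
    rw [hO, this]; exact hq
  obtain ⟨c1, hc1, hs1⟩ := sign_choice b2 hD (a := a1) hv0 h0
  obtain ⟨c2, hc2, hs2⟩ := sign_choice b2 hD (a := a2) hv0 h0
  have hon1 : ON c1 v := by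
    rcases hc1 with rfl | rfl
    · exact ha1
    · exact ⟨by rw [norm_neg]; exact ha1.1, ha1.2.1, by rw [inner_neg_left, ha1.2.2, neg_zero]⟩
  have hon2 : ON c2 v := by
    rcases hc2 with rfl | rfl
    · exact ha2
    · exact ⟨by rw [norm_neg]; exact ha2.1, ha2.2.1, by rw [inner_neg_left, ha2.2.2, neg_zero]⟩
  have hB1 : area D O c1 v = sig D := by
    rcases hc1 with rfl | rfl
    · exact hA1
    · rw [b9]; exact hA1
  have hB2 : area D O c2 v = sig D := by
    rcases hc2 with rfl | rfl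
    · exact hA2
    · rw [b9]; exact hA2
  have hcc : (inner ℝ c1 c2) ^ 2 < 1 := by
    rcases hc1 with rfl | rfl <;> rcases hc2 with rfl | rfl <;> simpa using hc
  have hpl := b4 D hD.2.1 hD.1 v c1 c2 O hv1 hon1.2.2 hon2.2.2 (by
    rw [hon1.1, hon2.1]; simpa using hcc)
  have hclt : (inner ℝ c1 c2 : ℝ) < 1 := by
    by_contra hge
    push Not at hge
    nlinarith
  refine xc _ _ σ (inner ℝ c1 c2) hpl hσ hclt ?_ ?_ ?_ ?_ ?_ ?_ ?_
  · intro s hs
    apply hs1 s
    simpa using hs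
  · intro s hs
    apply hs2 s
    simpa using hs
  · rw [← hsig, ← hB1, b1 D hD.2.1 O c1 v hv0]
    simp
  · rw [← hsig, ← hB2, b1 D hD.2.1 O c2 v hv0]
    simp
  · intro h
    have := b3 D hD.2.1 v hv1 (O + h • c2) c1 hon1.2.2
    rw [hon1.1, ENNReal.ofReal_one, one_mul, hsig] at this
    refine le_trans (le_of_eq ?_) this
    congr 1
    ext s
    congr 2
    abel
  · intro h
    have := b3 D hD.2.1 v hv1 (O + h • c1) c2 hon2.2.2
    rw [hon2.1, ENNReal.ofReal_one, one_mul, hsig] at this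
    exact this
  · intro A B hA hAB
    have := b3 D hD.2.1 v hv1 (O + A • c1) (B • c2 - A • c1) (by
      rw [inner_sub_left, inner_smul_left, inner_smul_left, hon1.2.2, hon2.2.2]; simp)
    rw [hsig] at this
    refine le_trans (le_of_eq ?_) this
    have hn : ‖B • c2 - A • c1‖ = Real.sqrt (A ^ 2 + B ^ 2 - 2 * A * B * inner ℝ c1 c2) := by
      rw [eq_comm, Real.sqrt_eq_iff_mul_self_eq_of_pos]
      · rw [← sq, @norm_sub_sq_real, norm_smul, norm_smul, hon1.1, hon2.1, inner_smul_left,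
          inner_smul_right, real_inner_comm c1 c2, mul_one, mul_one, Real.norm_eq_abs,
          Real.norm_eq_abs, sq_abs, sq_abs]
        simp only [conj_trivial]
        ring
      · rw [norm_pos_iff]
        intro h0
        have h1 : B • c2 = A • c1 := sub_eq_zero.1 h0
        have h2 : ‖B • c2‖ = ‖A • c1‖ := by rw [h1]
        rw [norm_smul, norm_smul, hon1.1, hon2.1, Real.norm_eq_abs, Real.norm_eq_abs,
          abs_of_pos hA, abs_of_pos (hA.trans hAB)] at h2
        linarith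
    rw [hn]
    congr 1
    congr 1
    ext r
    congr 2
    rw [smul_sub, smul_smul, smul_smul, sub_mul, one_mul, sub_smul]
    abel

lemma meyer_par (h1c : A1c) (b1 : B1) (b3 : B3) (b4 : B4) (xp : XP)
    {D : Set E} (hD : Body D) {σ : ℝ} (hσ : 0 < σ) (hsig : sig D = ENNReal.ofReal σ)
    {p q a v : E} (hpD : p ∈ D) (ha : ON a v)
    (hp : area D p a v = sig D) (hq : area D q a v = sig D)
    (hemp : ∀ x y : ℝ × ℝ, p + x.1 • a + x.2 • v ∈ D →
      p + x.1 • a + x.2 • v = q + y.1 • a + y.2 • v → False) : False := by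
  have hv1 : ‖v‖ = 1 := ha.2.1
  have hv0 : v ≠ 0 := by intro h; rw [h, norm_zero] at hv1; norm_num at hv1
  set γ : ℝ := inner ℝ (q - p) v with hγ
  set b : E := q - p - γ • v with hb
  have hbv : inner ℝ b v = 0 := by
    rw [hb, inner_sub_left, inner_smul_left, real_inner_self_eq_norm_sq, hv1]
    simp [hγ]
  have hqb : q = p + b + γ • v := by rw [hb]; abel
  have haa : inner ℝ a a = 1 := by rw [real_inner_self_eq_norm_sq, ha.1]; norm_num
  have hmeq : ‖b - (inner ℝ a b : ℝ) • a‖ ^ 2 = ‖b‖ ^ 2 - (inner ℝ a b) ^ 2 := by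
    rw [@norm_sub_sq_real, norm_smul, ha.1, inner_smul_right, real_inner_comm a b, mul_one,
      Real.norm_eq_abs, sq_abs]
    ring
  have hm : 0 < ‖b‖ ^ 2 - (inner ℝ a b) ^ 2 := by
    rw [← hmeq]
    apply pow_pos
    rw [norm_pos_iff]
    intro h0
    have hba : b = (inner ℝ a b : ℝ) • a := sub_eq_zero.1 h0
    refine hemp (0, 0) (-(inner ℝ a b), -γ) (by simpa using hpD) ?_
    show p + (0:ℝ) • a + (0:ℝ) • v = q + (-(inner ℝ a b : ℝ)) • a + (-γ) • v
    rw [zero_smul, zero_smul, add_zero, add_zero, hqb, neg_smul, neg_smul, ← hba]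
    abel
  have hpl := b4 D hD.2.1 hD.1 v a b p hv1 ha.2.2 hbv (by
    rw [ha.1]; linarith)
  refine xp _ _ σ (inner ℝ a b) (‖b‖ ^ 2 - (inner ℝ a b) ^ 2) hpl hσ hm ?_ ?_ ?_ ?_
  · rw [← hsig, ← hp, b1 D hD.2.1 p a v hv0]
    simp
  · have h2 : area D (p + b) a v = sig D := by
      have := h1c D (p + b) a v 0 γ
      rw [zero_smul, add_zero, ← hqb] at this
      rw [← this]; exact hq
    rw [← hsig, ← h2, b1 D hD.2.1 (p + b) a v hv0]
    congr 1
    ext s
    congr 2
    rw [one_smul]; abel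
  · have := b3 D hD.2.1 v hv1 (p + (1 / 2 : ℝ) • b) a ha.2.2
    rw [ha.1, ENNReal.ofReal_one, one_mul, hsig] at this
    refine le_trans (le_of_eq ?_) this
    congr 1
    ext s
    congr 2
    abel
  · intro x0 x1
    have := b3 D hD.2.1 v hv1 (p + x0 • a) ((x1 - x0) • a + b) (by
      rw [inner_add_left, inner_smul_left, ha.2.2, hbv]; simp)
    rw [hsig] at this
    refine le_trans (le_of_eq ?_) this
    have hn : ‖(x1 - x0) • a + b‖ =
        Real.sqrt ((x1 - x0 + inner ℝ a b) ^ 2 + (‖b‖ ^ 2 - (inner ℝ a b) ^ 2)) := by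
      rw [eq_comm]
      have h3 : (x1 - x0 + inner ℝ a b) ^ 2 + (‖b‖ ^ 2 - (inner ℝ a b) ^ 2)
          = ‖(x1 - x0) • a + b‖ ^ 2 := by
        rw [@norm_add_sq_real, norm_smul, ha.1, inner_smul_left, mul_one, Real.norm_eq_abs,
          sq_abs]
        simp only [conj_trivial]
        ring
      rw [h3, Real.sqrt_sq (norm_nonneg _)]
    rw [hn]
    congr 1
    congr 1
    ext r
    congr 2
    rw [smul_add, smul_smul, add_smul]
    abel

theorem meyer (h1a : A1a) (h1b : A1b) (h1c : A1c) (b1 : B1) (b2 : B2) (b3 : B3) (b4 : B4)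
    (b7 : B7) (b8 : B8) (b9 : B9) (xc : XC) (xp : XP) : B := by
  intro D hD f hf g hg
  obtain ⟨p, d, e⟩ := f
  obtain ⟨q, d', e'⟩ := g
  obtain ⟨hpD, hon, har⟩ := hf
  obtain ⟨hqD, hon', har'⟩ := hg
  simp only at hpD hon har hqD hon' har'
  by_contra hne
  rw [Set.not_nonempty_iff_eq_empty] at hne
  have hσ : 0 < (sig D).toReal := ENNReal.toReal_pos (h1b D hD) (h1a D hD.2.1)
  have hsig : sig D = ENNReal.ofReal (sig D).toReal := (ENNReal.ofReal_toReal (h1a D hD.2.1)).symm
  obtain ⟨v, v1, v2, v1', v2', hv, hvd, hvd'⟩ := b8 d e d' e' hon hon'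
  obtain ⟨a1, ha1, hK1, hP1⟩ := b7 d e v v1 v2 hon hvd hv
  obtain ⟨a2, ha2, hK2, hP2⟩ := b7 d' e' v v1' v2' hon' hvd' hv
  have hp : area D p a1 v = sig D := by rw [hK1]; exact har
  have hq : area D q a2 v = sig D := by rw [hK2]; exact har'
  have hemp : ∀ x y : ℝ × ℝ, p + x.1 • a1 + x.2 • v ∈ D →
      p + x.1 • a1 + x.2 • v = q + y.1 • a2 + y.2 • v → False := by
    intro x y hx hxy
    have h1 : p + x.1 • a1 + x.2 • v ∈ Sec D (p, d, e) := ⟨hx, (hP1 _ _).2 ⟨x, rfl⟩⟩
    have h2 : p + x.1 • a1 + x.2 • v ∈ Sec D (q, d', e') := ⟨hx, (hP2 _ _).2 ⟨y, hxy⟩⟩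
    have : p + x.1 • a1 + x.2 • v ∈ Sec D (p, d, e) ∩ Sec D (q, d', e') := ⟨h1, h2⟩
    rw [hne] at this
    exact this
  by_cases hc : (inner ℝ a1 a2) ^ 2 < 1
  · exact meyer_cross h1c b1 b2 b3 b4 b9 xc hD hσ hsig ha1 ha2 hc hp hq hemp
  · push Not at hc
    have habs : 1 ≤ |(inner ℝ a1 a2 : ℝ)| := by
      rw [← one_le_sq_iff_one_le_abs]; exact hc
    have habs' : |(inner ℝ a1 a2 : ℝ)| ≤ 1 := by
      have := abs_real_inner_le_norm a1 a2
      rwa [ha1.1, ha2.1, mul_one] at this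
    have h1 : |(inner ℝ a1 a2 : ℝ)| = 1 := le_antisymm habs' habs
    rcases (abs_eq (by norm_num)).1 h1 with h | h
    · have hE : a1 = a2 := (inner_eq_one_iff_of_norm_eq_one ha1.1 ha2.1).1 h
      subst hE
      exact meyer_par h1c b1 b3 b4 xp hD hσ hsig hpD ha1 hp hq hemp
    · have hE : a1 = -a2 := (inner_eq_neg_one_iff_of_norm_eq_one ha1.1 ha2.1).1 h
      have hq' : area D q a1 v = sig D := by rw [hE, b9]; exact hq
      refine meyer_par h1c b1 b3 b4 xp hD hσ hsig hpD ha1 hp hq' ?_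
      intro x y hx hxy
      refine hemp x (-y.1, y.2) hx ?_
      rw [hxy, hE]
      simp
end Q94.CP
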