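import Pool.Agent.Q94.CP.Stm

open MeasureTheory Set Filter

namespace Q94.CP

lemma closed_le (u : E) (c : ℝ) : IsClosed {x : E | inner ℝ u x ≤ c} :=
  isClosed_le (by fun_prop) continuous_const

lemma closed_ge (u : E) (c : ℝ) : IsClosed {x : E | c ≤ inner ℝ u x} :=
  isClosed_le continuous_const (by fun_prop)

lemma convex_le (u : E) (c : ℝ) : Convex ℝ {x : E | inner ℝ u x ≤ c} := by
  intro x hx y hy a b ha hb hab
  simp only [mem_setOf_eq, inner_add_right, inner_smul_right] at *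
  have h1 := mul_le_mul_of_nonneg_left hx ha
  have h2 := mul_le_mul_of_nonneg_left hy hb
  have h3 : a * c + b * c = c := by rw [← add_mul, hab, one_mul]
  linarith

lemma convex_ge (u : E) (c : ℝ) : Convex ℝ {x : E | c ≤ inner ℝ u x} := by
  intro x hx y hy a b ha hb hab
  simp only [mem_setOf_eq, inner_add_right, inner_smul_right] at *
  have h1 := mul_le_mul_of_nonneg_left hx ha
  have h2 := mul_le_mul_of_nonneg_left hy hb
  have h3 : a * c + b * c = c := by rw [← add_mul, hab, one_mul]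
  linarith

lemma disj_int {u : E} (hu : u ≠ 0) {c : ℝ} {A B : Set E} (hA : A ⊆ {x | inner ℝ u x ≤ c})
    (hB : B ⊆ {x | c ≤ inner ℝ u x}) : Disjoint (interior A) (interior B) := by
  rw [Set.disjoint_left]
  intro x hxA hxB
  have hU : IsOpen (interior A ∩ interior B) := isOpen_interior.inter isOpen_interior
  have hcont : Continuous (fun t : ℝ => x + t • u) := by fun_prop
  have h0 : (0 : ℝ) ∈ (fun t : ℝ => x + t • u) ⁻¹' (interior A ∩ interior B) := by
    simp [hxA, hxB]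
  have hO := hU.preimage hcont
  rw [Metric.isOpen_iff] at hO
  obtain ⟨r, hr, hball⟩ := hO 0 h0
  have hm : r / 2 ∈ Metric.ball (0 : ℝ) r := by
    rw [Metric.mem_ball, Real.dist_eq, sub_zero, abs_of_pos (half_pos hr)]; linarith
  have h1 := hball hm
  simp only [mem_preimage] at h1
  have e1 : inner ℝ u (x + (r / 2) • u) ≤ c := hA (interior_subset h1.1)
  have e2 : c ≤ inner ℝ u x := hB (interior_subset hxB)
  rw [inner_add_right, inner_smul_right, real_inner_self_eq_norm_sq] at e1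
  have : 0 < ‖u‖ := norm_pos_iff.2 hu
  have : 0 < r / 2 * ‖u‖ ^ 2 := by positivity
  linarith

theorem main (a6 : A6) (a7 : A7) (a8 : A8) (mb : B) (hC : C) (hD1 : D1)
    (hD2 : D2) : Main := by
  intro D hD
  obtain ⟨R, hR⟩ := hD.2.1.isBounded.subset_closedBall (0 : E)
  obtain ⟨fz, hfz⟩ := a8 D hD
  obtain ⟨u, p, b, hu, hub, hr, hpS⟩ := hC {f : Fr // f ∈ Mx D} (fun f => Sec D f.1) R
    ⟨⟨fz, hfz⟩⟩ (by
      rintro ⟨f, hf⟩
      refine ⟨⟨f.1, hf.1, (0, 0), by simp⟩, (hD2 D hD f hf.2.1).1, (hD2 D hD f hf.2.1).2, ?_⟩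
      intro x hx
      exact hR hx.1)
  -- an extremal section
  obtain ⟨f0, hf0, hf0b⟩ : ∃ f ∈ Mx D, Sec D f ⊆ {x | inner ℝ u x ≤ b} := by
    obtain ⟨f, hf, hfs⟩ := a7 D hD (fun n : ℕ => {x : E | inner ℝ u x ≤ b + 1 / ((n : ℝ) + 1)})
      (fun n => closed_le u _) (fun n => convex_le u _) (by
        intro m n hmn x hx
        simp only [mem_setOf_eq] at hx ⊢
        have : 1 / ((n : ℝ) + 1) ≤ 1 / ((m : ℝ) + 1) :=
          one_div_le_one_div_of_le (by positivity) (by exact_mod_cast Nat.succ_le_succ hmn)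
        linarith) (by
        intro n
        obtain ⟨⟨f, hf⟩, hfs⟩ := hr (1 / ((n : ℝ) + 1)) (by positivity)
        exact ⟨f, hf, hfs⟩)
    refine ⟨f, hf, fun x hx => ?_⟩
    have hx' := mem_iInter.1 (hfs hx)
    simp only [mem_setOf_eq] at hx' ⊢
    have hlim : Tendsto (fun n : ℕ => b + 1 / ((n : ℝ) + 1)) atTop (nhds (b + 0)) :=
      tendsto_const_nhds.add tendsto_one_div_add_atTop_nhds_zero_nat
    rw [add_zero] at hlim
    exact ge_of_tendsto' hlim hx'
  -- the direction w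
  obtain ⟨w, hw⟩ : ∃ w : E, ∀ f ∈ Mx D,
      ¬ Sec D f ⊆ {x | inner ℝ u x = b ∧ 0 ≤ inner ℝ w (x - p)} := by
    by_cases h : ∃ f1 ∈ Mx D, Sec D f1 ⊆ {x | inner ℝ u x = b}
    · obtain ⟨f1, hf1, hs1⟩ := h
      obtain ⟨x1, hx1, hx1p⟩ := (hD1 D hD f1 hf1).2 p
      refine ⟨p - x1, fun f hf hsub => ?_⟩
      have h1 : Sec D f ⊆ {x | inner ℝ u x = b} := fun x hx => (hsub hx).1
      have h2 : x1 ∈ Sec D f := (hD1 D hD f hf).1 u b hu h1 x1 hx1.1 (hs1 hx1)
      have h3 := (hsub h2).2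
      have h4 : inner ℝ (p - x1) (x1 - p) = -‖x1 - p‖ ^ 2 := by
        rw [← neg_sub x1 p, inner_neg_left, real_inner_self_eq_norm_sq]
      rw [h4] at h3
      have : 0 < ‖x1 - p‖ := norm_pos_iff.2 (sub_ne_zero.2 hx1p)
      nlinarith
    · refine ⟨0, fun f hf hsub => h ⟨f, hf, fun x hx => (hsub hx).1⟩⟩
  -- the tilt
  obtain ⟨M, hM0, hM⟩ : ∃ M : ℝ, 0 ≤ M ∧ ∀ x ∈ D, inner ℝ w (x - p) ≤ M := by
    refine ⟨‖w‖ * (|R| + ‖p‖), by positivity, fun x hx => ?_⟩
    have h1 : ‖x‖ ≤ |R| := by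
      have := hR hx
      rw [Metric.mem_closedBall, dist_zero_right] at this
      exact this.trans (le_abs_self R)
    calc inner ℝ w (x - p) ≤ ‖w‖ * ‖x - p‖ := real_inner_le_norm _ _
      _ ≤ ‖w‖ * (|R| + ‖p‖) := by
        apply mul_le_mul_of_nonneg_left _ (norm_nonneg _)
        exact (norm_sub_le _ _).trans (by linarith)
  obtain ⟨η, hη, hηw, hηf⟩ : ∃ η : ℝ, 0 < η ∧ η * ‖w‖ < ‖u‖ ∧ ∀ f ∈ Mx D,
      ¬ Sec D f ⊆ {x | inner ℝ u x ≤ b ∧ 0 ≤ inner ℝ (u + η • w) (x - p)} := by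
    have hun : 0 < ‖u‖ := norm_pos_iff.2 hu
    by_contra hcon
    push Not at hcon
    set η0 : ℝ := ‖u‖ / (2 * (‖w‖ + 1)) with hη0
    have hη0p : 0 < η0 := by positivity
    have hη0w : η0 * ‖w‖ < ‖u‖ := by
      rw [hη0, div_mul_eq_mul_div, div_lt_iff₀ (by positivity)]
      nlinarith [norm_nonneg w]
    obtain ⟨f, hf, hfs⟩ := a7 D hD (fun n : ℕ => {x : E | inner ℝ u x ≤ b} ∩
      ({x : E | inner ℝ w p ≤ inner ℝ w x} ∩
      {x : E | b - η0 * M * (1 / ((n : ℝ) + 1)) ≤ inner ℝ u x}))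
      (fun n => (closed_le u _).inter ((closed_ge w _).inter (closed_ge u _)))
      (fun n => (convex_le u _).inter ((convex_ge w _).inter (convex_ge u _))) (by
        intro m n hmn x hx
        refine ⟨hx.1, hx.2.1, ?_⟩
        have h2 := hx.2.2
        simp only [mem_setOf_eq] at h2 ⊢
        have h3 : 1 / ((n : ℝ) + 1) ≤ 1 / ((m : ℝ) + 1) :=
          one_div_le_one_div_of_le (by positivity) (by exact_mod_cast Nat.succ_le_succ hmn)
        have h4 : η0 * M * (1 / ((n : ℝ) + 1)) ≤ η0 * M * (1 / ((m : ℝ) + 1)) :=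
          mul_le_mul_of_nonneg_left h3 (by positivity)
        linarith) (by
        intro n
        have hn1 : (0:ℝ) < 1 / ((n : ℝ) + 1) := by positivity
        have hn2 : 1 / ((n : ℝ) + 1) ≤ 1 := by
          rw [div_le_one (by positivity)]; linarith [(Nat.cast_nonneg n : (0:ℝ) ≤ n)]
        obtain ⟨f, hf, hfs⟩ := hcon (η0 * (1 / ((n : ℝ) + 1))) (by positivity) (by
          calc η0 * (1 / ((n : ℝ) + 1)) * ‖w‖ = (η0 * ‖w‖) * (1 / ((n : ℝ) + 1)) := by ring
            _ ≤ (η0 * ‖w‖) * 1 := mul_le_mul_of_nonneg_left hn2 (by positivity)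
            _ < ‖u‖ := by rw [mul_one]; exact hη0w)
        refine ⟨f, hf, fun x hx => ?_⟩
        obtain ⟨h1, h2⟩ := hfs hx
        have hxM := hM x hx.1
        rw [inner_add_left, inner_smul_left, inner_sub_right, inner_sub_right] at h2
        rw [inner_sub_right] at hxM
        simp only [conj_trivial] at h2
        rw [hub] at h2
        have hpos : 0 < η0 * (1 / ((n : ℝ) + 1)) := by positivity
        have h5 : 0 ≤ inner ℝ w x - inner ℝ w p := by
          by_contra hneg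
          push Not at hneg
          have := mul_neg_of_pos_of_neg hpos hneg
          linarith
        refine ⟨h1, ?_, ?_⟩
        · simp only [mem_setOf_eq]; linarith
        · simp only [mem_setOf_eq]
          have := mul_le_mul_of_nonneg_left hxM hpos.le
          nlinarith)
    refine hw f hf fun x hx => ?_
    have hx' := mem_iInter.1 (hfs hx)
    have h0 := hx' 0
    refine ⟨le_antisymm h0.1 ?_, ?_⟩
    · have hlim : Tendsto (fun n : ℕ => b - η0 * M * (1 / ((n : ℝ) + 1))) atTop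
          (nhds (b - η0 * M * 0)) :=
        tendsto_const_nhds.sub (tendsto_one_div_add_atTop_nhds_zero_nat.const_mul _)
      rw [mul_zero, sub_zero] at hlim
      exact le_of_tendsto' hlim (fun n => (hx' n).2.2)
    · rw [inner_sub_right]
      have := h0.2.1
      simp only [mem_setOf_eq] at this
      linarith
  set u2 : E := u + η • w with hu2
  have hu2n : u2 ≠ 0 := by
    intro h0
    have h1 : u = -(η • w) := eq_neg_of_add_eq_zero_left h0
    have h2 : ‖u‖ = η * ‖w‖ := by rw [h1, norm_neg, norm_smul, Real.norm_eq_abs, abs_of_pos hη]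
    linarith
  -- the second cut
  obtain ⟨δ, hδ, hδf⟩ : ∃ δ : ℝ, 0 < δ ∧ ∀ f ∈ Mx D,
      ¬ Sec D f ⊆ {x | inner ℝ u x ≤ b + δ ∧ inner ℝ u2 p - δ ≤ inner ℝ u2 x} := by
    by_contra hcon
    push Not at hcon
    obtain ⟨f, hf, hfs⟩ := a7 D hD (fun n : ℕ => {x : E | inner ℝ u x ≤ b + 1 / ((n : ℝ) + 1)} ∩
      {x : E | inner ℝ u2 p - 1 / ((n : ℝ) + 1) ≤ inner ℝ u2 x})
      (fun n => (closed_le u _).inter (closed_ge u2 _))
      (fun n => (convex_le u _).inter (convex_ge u2 _)) (by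
        intro m n hmn x hx
        obtain ⟨h1, h2⟩ := hx
        simp only [mem_setOf_eq] at h1 h2
        have h3 : 1 / ((n : ℝ) + 1) ≤ 1 / ((m : ℝ) + 1) :=
          one_div_le_one_div_of_le (by positivity) (by exact_mod_cast Nat.succ_le_succ hmn)
        refine ⟨?_, ?_⟩
        · simp only [mem_setOf_eq]; linarith
        · simp only [mem_setOf_eq]; linarith) (by
        intro n
        obtain ⟨f, hf, hfs⟩ := hcon (1 / ((n : ℝ) + 1)) (by positivity)
        exact ⟨f, hf, fun x hx => ⟨(hfs hx).1, (hfs hx).2⟩⟩)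
    refine hηf f hf fun x hx => ?_
    have hx' := mem_iInter.1 (hfs hx)
    constructor
    · have hlim : Tendsto (fun n : ℕ => b + 1 / ((n : ℝ) + 1)) atTop (nhds (b + 0)) :=
        tendsto_const_nhds.add tendsto_one_div_add_atTop_nhds_zero_nat
      rw [add_zero] at hlim
      exact ge_of_tendsto' hlim (fun n => (hx' n).1)
    · have hlim : Tendsto (fun n : ℕ => inner ℝ u2 p - 1 / ((n : ℝ) + 1)) atTop
          (nhds (inner ℝ u2 p - 0)) :=
        tendsto_const_nhds.sub tendsto_one_div_add_atTop_nhds_zero_nat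
      rw [sub_zero] at hlim
      have h2 : inner ℝ u2 p ≤ inner ℝ u2 x := le_of_tendsto' hlim (fun n => (hx' n).2)
      rw [inner_sub_right]
      linarith
  obtain ⟨ε, hε, hεδ, hεf⟩ : ∃ ε : ℝ, 0 < ε ∧ ε ≤ δ ∧ ∀ f ∈ Mx D,
      ¬ Sec D f ⊆ {x | inner ℝ u x ≤ b + ε ∧ inner ℝ u2 x ≤ inner ℝ u2 p - δ} := by
    by_contra hcon
    push Not at hcon
    obtain ⟨f, hf, hfs⟩ := a7 D hD (fun n : ℕ =>
      {x : E | inner ℝ u x ≤ b + δ * (1 / ((n : ℝ) + 1))} ∩
      {x : E | inner ℝ u2 x ≤ inner ℝ u2 p - δ})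
      (fun n => (closed_le u _).inter (closed_le u2 _))
      (fun n => (convex_le u _).inter (convex_le u2 _)) (by
        intro m n hmn x hx
        obtain ⟨h1, h2⟩ := hx
        simp only [mem_setOf_eq] at h1
        have h3 : 1 / ((n : ℝ) + 1) ≤ 1 / ((m : ℝ) + 1) :=
          one_div_le_one_div_of_le (by positivity) (by exact_mod_cast Nat.succ_le_succ hmn)
        have h4 := mul_le_mul_of_nonneg_left h3 hδ.le
        refine ⟨?_, h2⟩
        simp only [mem_setOf_eq]; linarith) (by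
        intro n
        have hn2 : 1 / ((n : ℝ) + 1) ≤ 1 := by
          rw [div_le_one (by positivity)]; linarith [(Nat.cast_nonneg n : (0:ℝ) ≤ n)]
        obtain ⟨f, hf, hfs⟩ := hcon (δ * (1 / ((n : ℝ) + 1))) (by positivity) (by
          calc δ * (1 / ((n : ℝ) + 1)) ≤ δ * 1 := mul_le_mul_of_nonneg_left hn2 hδ.le
            _ = δ := mul_one δ)
        exact ⟨f, hf, fun x hx => ⟨(hfs hx).1, (hfs hx).2⟩⟩)
    have hsub : Sec D f ⊆ {x | inner ℝ u x ≤ b} := by
      intro x hx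
      have hx' := mem_iInter.1 (hfs hx)
      have hlim : Tendsto (fun n : ℕ => b + δ * (1 / ((n : ℝ) + 1))) atTop
          (nhds (b + δ * 0)) :=
        tendsto_const_nhds.add (tendsto_one_div_add_atTop_nhds_zero_nat.const_mul _)
      rw [mul_zero, add_zero] at hlim
      exact ge_of_tendsto' hlim (fun n => (hx' n).1)
    have hp1 := hpS ⟨f, hf⟩ hsub
    have h2 := (mem_iInter.1 (hfs hp1) 0).2
    simp only [mem_setOf_eq] at h2
    linarith
  have hDc : IsClosed D := hD.2.1.isClosed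
  refine ⟨D ∩ {x | b + ε ≤ inner ℝ u x},
    D ∩ ({x | inner ℝ u x ≤ b + ε} ∩ {x | inner ℝ u2 x ≤ inner ℝ u2 p - δ}),
    D ∩ ({x | inner ℝ u x ≤ b + ε} ∩ {x | inner ℝ u2 p - δ ≤ inner ℝ u2 x}),
    ⟨hDc.inter (closed_ge u _), hD.1.inter (convex_ge u _)⟩,
    ⟨hDc.inter ((closed_le u _).inter (closed_le u2 _)),
      hD.1.inter ((convex_le u _).inter (convex_le u2 _))⟩,
    ⟨hDc.inter ((closed_le u _).inter (closed_ge u2 _)),
      hD.1.inter ((convex_le u _).inter (convex_ge u2 _))⟩, ?_, ?_, ?_, ?_, ?_, ?_, ?_⟩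
  · ext x
    constructor
    · rintro ((h | h) | h) <;> exact h.1
    · intro hx
      rcases le_total (b + ε) (inner ℝ u x) with h | h
      · exact Or.inl (Or.inl ⟨hx, h⟩)
      · rcases le_total (inner ℝ u2 x) (inner ℝ u2 p - δ) with h' | h'
        · exact Or.inl (Or.inr ⟨hx, h, h'⟩)
        · exact Or.inr ⟨hx, h, h'⟩
  · exact (disj_int hu (fun x hx => hx.2.1) (fun x hx => hx.2)).symm
  · exact (disj_int hu (fun x hx => hx.2.1) (fun x hx => hx.2)).symm
  · exact disj_int hu2n (fun x hx => hx.2.2) (fun x hx => hx.2.2)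
  · refine a6 D hD _ (hDc.inter (closed_ge u _)) (hD.1.inter (convex_ge u _)) inter_subset_left
      fun f hf hsub => ?_
    obtain ⟨x, hx1, hx2⟩ := mb D hD f hf f0 hf0
    have h1 := (hsub hx1).2
    have h2 := hf0b hx2
    simp only [mem_setOf_eq] at h1 h2
    linarith
  · refine a6 D hD _ (hDc.inter ((closed_le u _).inter (closed_le u2 _)))
      (hD.1.inter ((convex_le u _).inter (convex_le u2 _))) inter_subset_left
      fun f hf hsub => ?_
    exact hεf f hf fun x hx => (hsub hx).2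
  · refine a6 D hD _ (hDc.inter ((closed_le u _).inter (closed_ge u2 _)))
      (hD.1.inter ((convex_le u _).inter (convex_ge u2 _))) inter_subset_left
      fun f hf hsub => ?_
    refine hδf f hf fun x hx => ⟨?_, (hsub hx).2.2⟩
    have := (hsub hx).2.1
    simp only [mem_setOf_eq] at this
    linarith

end Q94.CP
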