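import Pool.Agent.Q94.CP.Stm

open MeasureTheory Set Filter

namespace Q94.CP

/-- Slices of planar data. -/
lemma slice_h {G : ℝ → ℝ → ℝ} {P : Set (ℝ × ℝ)} (h : Pl G P) (y : ℝ) :
    IsCompact {s : ℝ | (s, y) ∈ P} ∧ ConcaveOn ℝ {s : ℝ | (s, y) ∈ P} (fun s => G s y) ∧
    (∀ s, 0 ≤ G s y) ∧ (∀ s, s ∉ {s : ℝ | (s, y) ∈ P} → G s y = 0) := by
  obtain ⟨h0, hz, hc, hcc⟩ := h
  refine ⟨?_, ⟨?_, ?_⟩, fun s => h0 s y, fun s hs => hz s y hs⟩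
  · have hset : {s : ℝ | (s, y) ∈ P} = Prod.fst '' (P ∩ {z : ℝ × ℝ | z.2 = y}) := by
      ext s
      constructor
      · intro hs; exact ⟨(s, y), ⟨hs, rfl⟩, rfl⟩
      · rintro ⟨⟨a, b⟩, ⟨hab, hb⟩, rfl⟩
        simp only [mem_setOf_eq] at hb ⊢
        rwa [← hb]
    rw [hset]
    exact (hc.inter_right (isClosed_eq continuous_snd continuous_const)).image continuous_fst
  · intro s hs t ht a b ha hb hab
    have := hcc.1 hs ht ha hb hab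
    simp only [Prod.smul_mk, Prod.mk_add_mk, smul_eq_mul] at this
    have h2 : a * y + b * y = y := by rw [← add_mul, hab, one_mul]
    rw [h2] at this
    simpa using this
  · intro s hs t ht a b ha hb hab
    have := hcc.2 hs ht ha hb hab
    simp only [Prod.smul_mk, Prod.mk_add_mk, smul_eq_mul] at this
    have h2 : a * y + b * y = y := by rw [← add_mul, hab, one_mul]
    rw [h2] at this
    simpa using this

lemma slice_v {G : ℝ → ℝ → ℝ} {P : Set (ℝ × ℝ)} (h : Pl G P) (y : ℝ) :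
    IsCompact {s : ℝ | (y, s) ∈ P} ∧ ConcaveOn ℝ {s : ℝ | (y, s) ∈ P} (fun s => G y s) ∧
    (∀ s, 0 ≤ G y s) ∧ (∀ s, s ∉ {s : ℝ | (y, s) ∈ P} → G y s = 0) := by
  obtain ⟨h0, hz, hc, hcc⟩ := h
  refine ⟨?_, ⟨?_, ?_⟩, fun s => h0 y s, fun s hs => hz y s hs⟩
  · have hset : {s : ℝ | (y, s) ∈ P} = Prod.snd '' (P ∩ {z : ℝ × ℝ | z.1 = y}) := by
      ext s
      constructor
      · intro hs; exact ⟨(y, s), ⟨hs, rfl⟩, rfl⟩
      · rintro ⟨⟨a, b⟩, ⟨hab, hb⟩, rfl⟩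
        simp only [mem_setOf_eq] at hb ⊢
        rwa [← hb]
    rw [hset]
    exact (hc.inter_right (isClosed_eq continuous_fst continuous_const)).image continuous_snd
  · intro s hs t ht a b ha hb hab
    have := hcc.1 hs ht ha hb hab
    simp only [Prod.smul_mk, Prod.mk_add_mk, smul_eq_mul] at this
    have h2 : a * y + b * y = y := by rw [← add_mul, hab, one_mul]
    rw [h2] at this
    simpa using this
  · intro s hs t ht a b ha hb hab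
    have := hcc.2 hs ht ha hb hab
    simp only [Prod.smul_mk, Prod.mk_add_mk, smul_eq_mul] at this
    have h2 : a * y + b * y = y := by rw [← add_mul, hab, one_mul]
    rw [h2] at this
    simpa using this

lemma Ioo_inj {A B C D : ℝ} (hAB : A < B) (hCD : C < D) (h : Ioo A B = Ioo C D) :
    A = C ∧ B = D := by
  constructor
  · have := congrArg sInf h
    rwa [csInf_Ioo hAB, csInf_Ioo hCD] at this
  · have := congrArg sSup h
    rwa [csSup_Ioo hAB, csSup_Ioo hCD] at this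

theorem xc (h1 : X1) (h2 : X2) (h3 : X3) (h4 : X4) (h5 : X5) (h6 : X6) : XC := by
  intro G P σ c hPl hσ hc hI1 hI2 hint1 hint2 hh hv hd
  obtain ⟨c1, cc1, p1, z1⟩ := slice_h hPl 0
  obtain ⟨c2, cc2, p2, z2⟩ := slice_v hPl 0
  obtain ⟨A1, B1, hAB1, hI1e, hc1, hp1, hl1⟩ := h1 _ _ σ hσ c1 cc1 p1 z1 hint1
  obtain ⟨A2, B2, hAB2, hI2e, hc2, hp2, hl2⟩ := h1 _ _ σ hσ c2 cc2 p2 z2 hint2
  have hA1 : 0 < A1 := by
    have : A1 ∈ {s : ℝ | (s, (0:ℝ)) ∈ P} := by rw [hI1e]; exact left_mem_Icc.2 hAB1.le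
    exact hI1 A1 this
  have hA2 : 0 < A2 := by
    have : A2 ∈ {s : ℝ | ((0:ℝ), s) ∈ P} := by rw [hI2e]; exact left_mem_Icc.2 hAB2.le
    exact hI2 A2 this
  obtain ⟨T, hT⟩ := h2 _ _ A1 B1 A2 B2 σ hσ hAB1 hAB2 hc1 hc2 hp1 hp2 hl1 hl2
  have hm1 : ∀ s ∈ Ioo A1 B1, (s, (0:ℝ)) ∈ P := by
    intro s hs
    have : s ∈ {s : ℝ | (s, (0:ℝ)) ∈ P} := by rw [hI1e]; exact Ioo_subset_Icc_self hs
    exact this
  have hm2 : ∀ s ∈ Ioo A2 B2, ((0:ℝ), s) ∈ P := by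
    intro s hs
    have : s ∈ {s : ℝ | ((0:ℝ), s) ∈ P} := by rw [hI2e]; exact Ioo_subset_Icc_self hs
    exact this
  set h : ℝ := min A1 A2 / 2 with hh'
  have hhpos : 0 < h := by rw [hh']; exact half_pos (lt_min hA1 hA2)
  have hh1 : 2 * h ≤ A1 := by rw [hh']; linarith [min_le_left A1 A2]
  have hh2 : 2 * h ≤ A2 := by rw [hh']; linarith [min_le_right A1 A2]
  have e3 := h3 G P A1 B1 A2 B2 h T hPl hA1 hAB1 hA2 hAB2 hhpos hh2
    (fun s hs => ⟨hm1 s hs, hp1 s hs⟩) (fun s hs => ⟨hm2 s hs, hp2 s hs⟩) hT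
  have e4 := h4 G P A1 B1 A2 B2 h T hPl hA1 hAB1 hA2 hAB2 hhpos hh1
    (fun s hs => ⟨hm1 s hs, hp1 s hs⟩) (fun s hs => ⟨hm2 s hs, hp2 s hs⟩) hT
  have hTc : ContinuousOn T (Ioo A1 B1) :=
    fun s hs => ((hT.1 s hs).2.continuousAt).continuousWithinAt
  have hid := h5 (fun s => G s 0) T A1 B1 A2 B2 h σ hA1 hAB1 hA2 hAB2 hhpos hh1 hh2 hc1 hp1
    hTc (fun s hs => (hT.1 s hs).1) hl1 (e3.trans (hh h)) (e4.trans (hv h))
  have himg : Ioo A1 B1 = Ioo A2 B2 := by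
    rw [← hT.2.2]
    ext s
    constructor
    · intro hs; exact ⟨s, hs, hid s hs⟩
    · rintro ⟨t, ht, rfl⟩; rw [hid t ht]; exact ht
  obtain ⟨eA, eB⟩ := Ioo_inj hAB1 hAB2 himg
  subst eA; subst eB
  have hWW : ∀ s ∈ Ioo A1 B1, G s 0 = G 0 s := by
    intro s hs
    have hd1 := (hT.1 s hs).2
    have hev : T =ᶠ[nhds s] id := by
      filter_upwards [isOpen_Ioo.mem_nhds hs] with t ht using hid t ht
    have hd2 : HasDerivAt T 1 s := (hasDerivAt_id s).congr_of_eventuallyEq hev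
    have := hd1.unique hd2
    rw [hid s hs] at this
    have hp := hp2 s hs
    have hp' : (fun s => G 0 s) s ≠ 0 := hp.ne'
    rw [div_eq_one_iff_eq hp'] at this
    exact this
  have := h6 G P A1 B1 σ c hPl hσ hc hA1 hAB1 (fun s hs => ⟨hm1 s hs, hm2 s hs, hWW s hs⟩) hl1
  exact absurd (hd A1 B1 hA1 hAB1) (not_le.2 this)

theorem xp (h1 : X1) (h2 : X2) (hp1 : XP1) (hp2 : XP2) : XP := by
  intro G P σ β m hPl hσ hm hint1 hint2 hh hd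
  obtain ⟨c1, cc1, p1, z1⟩ := slice_h hPl 0
  obtain ⟨c2, cc2, p2, z2⟩ := slice_h hPl 1
  obtain ⟨A1, B1, hAB1, hI1e, hc1, hq1, hl1⟩ := h1 _ _ σ hσ c1 cc1 p1 z1 hint1
  obtain ⟨A2, B2, hAB2, hI2e, hc2, hq2, hl2⟩ := h1 _ _ σ hσ c2 cc2 p2 z2 hint2
  obtain ⟨T, hT⟩ := h2 _ _ A1 B1 A2 B2 σ hσ hAB1 hAB2 hc1 hc2 hq1 hq2 hl1 hl2
  have hm1 : ∀ s ∈ Ioo A1 B1, (s, (0:ℝ)) ∈ P := by
    intro s hs
    have : s ∈ {s : ℝ | (s, (0:ℝ)) ∈ P} := by rw [hI1e]; exact Ioo_subset_Icc_self hs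
    exact this
  have hm2 : ∀ s ∈ Ioo A2 B2, (s, (1:ℝ)) ∈ P := by
    intro s hs
    have : s ∈ {s : ℝ | (s, (1:ℝ)) ∈ P} := by rw [hI2e]; exact Ioo_subset_Icc_self hs
    exact this
  obtain ⟨k, hk⟩ := hp1 G P A1 B1 A2 B2 σ T hPl hσ hAB1 hAB2
    (fun s hs => ⟨hm1 s hs, hq1 s hs⟩) (fun s hs => ⟨hm2 s hs, hq2 s hs⟩) hc1 hc2 hT hl1 hh
  refine hp2 G P A1 B1 σ k β m hPl hσ hm hAB1 (fun s hs => ⟨hm1 s hs, ?_, (hk s hs).2⟩) hl1 hd
  have := (hT.1 s hs).1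
  rw [(hk s hs).1] at this
  exact hm2 _ this

end Q94.CP
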